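import Mathlib

/-!
# Multigraphs, peripheral cycles, drawings on surfaces and representativity (MP_6bdc24_co)
-/

namespace Pool.Agent.R177.Per

/-- A multigraph with vertex set `V` and edge set `E`; loops and parallel edges are allowed. -/
structure MGraph (V E : Type) where
  /-- one end of an edge -/
  src : E → V
  /-- the other end of an edge -/
  tgt : E → V

namespace MGraph

variable {V E : Type} (G : MGraph V E)

/-- the edge `e` joins `u` and `v` -/
def Joins (e : E) (u v : V) : Prop :=
  (G.src e = u ∧ G.tgt e = v) ∨ (G.src e = v ∧ G.tgt e = u)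

/-- `G` has no loops and no parallel edges -/
def IsSimple : Prop :=
  (∀ e, G.src e ≠ G.tgt e) ∧ ∀ e e' u v, G.Joins e u v → G.Joins e' u v → e = e'

/-- one can walk from `u` to `v`, using only edges of `F` and visiting after `u` only vertices
of `W` -/
def Linked (W : Set V) (F : Set E) (u v : V) : Prop :=
  Relation.ReflTransGen (fun a b => b ∈ W ∧ ∃ e ∈ F, G.Joins e a b) u v

/-- the graph whose vertices are the elements of `W` and whose edges are the edges of `G` that
lie in `F` and have both ends in `W` is connected (the empty graph is regarded as connected) -/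
def ConnectedOn (W : Set V) (F : Set E) : Prop :=
  ∀ u ∈ W, ∀ v ∈ W, G.Linked W F u v

/-- `G` has at least two vertices and stays connected when any two edges are deleted -/
def ThreeEdgeConnected : Prop :=
  Nontrivial V ∧ ∀ F : Set E, F.encard ≤ 2 → G.ConnectedOn Set.univ Fᶜ

/-- `C` is the edge set of a cycle whose vertex set is `W`: there are `n ≥ 1` distinct vertices
`v 0, …, v (n - 1)` and distinct edges `e 0, …, e (n - 1)`, such that `e i` joins `v i` and
`v (i + 1)` (indices modulo `n`). For `n = 1` it is a loop, for `n = 2` a pair of parallel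
edges. -/
def IsCycle (C : Set E) (W : Set V) : Prop :=
  ∃ n : ℕ, 1 ≤ n ∧ ∃ (v : ZMod n → V) (e : ZMod n → E), Function.Injective v ∧
    Function.Injective e ∧ (∀ i, G.Joins (e i) (v i) (v (i + 1))) ∧
    Set.range e = C ∧ Set.range v = W

/-- `C` is (the edge set of) a peripheral cycle: a cycle that is induced and whose vertex set `W`
has a complement on which `G` is connected -/
def IsPeripheral (C : Set E) : Prop :=
  ∃ W : Set V, G.IsCycle C W ∧ (∀ e, G.src e ∈ W → G.tgt e ∈ W → e ∈ C) ∧
    G.ConnectedOn Wᶜ Set.univ

/-- the branch sets `B i` are nonempty, connected and pairwise disjoint -/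
def BranchSets {ι : Type} (B : ι → Set V) : Prop :=
  (∀ i, (B i).Nonempty) ∧ (∀ i, G.ConnectedOn (B i) Set.univ) ∧
    ∀ i j, i ≠ j → Disjoint (B i) (B j)

/-- some edge joins the vertex sets `A` and `B` -/
def Touch (A B : Set V) : Prop := ∃ e, ∃ u ∈ A, ∃ v ∈ B, G.Joins e u v

/-- `G` has a `K₅` minor -/
def HasK5Minor : Prop :=
  ∃ B : Fin 5 → Set V, G.BranchSets B ∧ ∀ i j, i ≠ j → G.Touch (B i) (B j)

/-- `G` has a `K₃,₃` minor -/
def HasK33Minor : Prop :=
  ∃ B : Fin 3 ⊕ Fin 3 → Set V, G.BranchSets B ∧
    ∀ i j, G.Touch (B (Sum.inl i)) (B (Sum.inr j))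

/-- `G` is nonplanar (by Wagner's theorem: it has a `K₅` or a `K₃,₃` minor) -/
def Nonplanar : Prop := G.HasK5Minor ∨ G.HasK33Minor

/-- An embedding (drawing without crossings) of `G` in the space `X`: vertices are distinct
points, every edge is an arc between its ends, and the interior points of the arcs are pairwise
different and different from all other points of the drawing. -/
structure Drawing (X : Type) [TopologicalSpace X] where
  /-- the position of a vertex -/
  pos : V → X
  /-- the arc of an edge -/
  arc : E → C(unitInterval, X)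
  pos_injective : Function.Injective pos
  arc_zero : ∀ e, arc e 0 = pos (G.src e)
  arc_one : ∀ e, arc e 1 = pos (G.tgt e)
  arc_avoid : ∀ e s, s ≠ 0 → s ≠ 1 → ∀ v, arc e s ≠ pos v
  arc_disjoint : ∀ e s, s ≠ 0 → s ≠ 1 → ∀ e' t, arc e s = arc e' t → e = e' ∧ s = t

variable {G}

/-- the point set of a drawing -/
def Drawing.image {X : Type} [TopologicalSpace X] (D : G.Drawing X) : Set X :=
  Set.range D.pos ∪ ⋃ e, Set.range (D.arc e)

/-- The drawing has representativity (face-width) at least `k`: every noncontractible simple
closed curve meets the drawing in at least `k` points. Closed curves are parametrised by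
`ℝ / ℤ`. -/
def Drawing.RepAtLeast {X : Type} [TopologicalSpace X] (D : G.Drawing X) (k : ℕ) : Prop :=
  ∀ γ : C(AddCircle (1 : ℝ), X), Function.Injective γ → ¬ γ.Nullhomotopic →
    (k : ℕ∞) ≤ (Set.range γ ∩ D.image).encard

end MGraph

/-- the torus `ℝ/ℤ × ℝ/ℤ` -/
abbrev Torus : Type := AddCircle (1 : ℝ) × AddCircle (1 : ℝ)

end Pool.Agent.R177.Per
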