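import Mathlib
import Pool.Agent.R177.Per.Def

/-!
# The toroidal grid with nested triangles: connectivity and the `K₅` minor
-/

namespace Pool.Agent.R177.Per

open MGraph

/-- vertices: those of the `N × N` grid and `m` layers of three vertices -/
inductive Vx (N m : ℕ) : Type
  | grid (x y : ZMod N) : Vx N m
  | lay (i : Fin m) (j : Fin 3) : Vx N m

/-- edges: horizontal and vertical grid edges, edges of the triangles, radial edges -/
inductive Ex (N m : ℕ) : Type
  | hor (x y : ZMod N) : Ex N m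
  | ver (x y : ZMod N) : Ex N m
  | tri (i : Fin m) (j : Fin 3) : Ex N m
  | rad (i : Fin m) (j : Fin 3) : Ex N m

variable {N m : ℕ}

set_option linter.unusedSectionVars false

/-- three corners of a face of the grid -/
def corner (j : Fin 3) : Vx N m :=
  ![Vx.grid 0 0, Vx.grid 1 0, Vx.grid 1 1] j

/-- the vertices on the ray `j`: corner, layer `0`, layer `1`, … -/
def node (n : Fin (m + 1)) (j : Fin 3) : Vx N m :=
  Fin.cases (corner j) (fun i => Vx.lay i j) n

/-- the graph -/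
def Gr (N m : ℕ) : MGraph (Vx N m) (Ex N m) where
  src
    | .hor x y => .grid x y
    | .ver x y => .grid x y
    | .tri i j => .lay i (j + 1)
    | .rad i j => node i.castSucc j
  tgt
    | .hor x y => .grid (x + 1) y
    | .ver x y => .grid x (y + 1)
    | .tri i j => .lay i (j + 2)
    | .rad i j => .lay i j

section linked

variable {V E : Type} {G : MGraph V E} {W : Set V} {F : Set E}

lemma Joins.symm {e : E} {u v : V} (h : G.Joins e u v) : G.Joins e v u := by
  unfold MGraph.Joins at *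
  tauto

lemma Linked.refl (u : V) : G.Linked W F u u := Relation.ReflTransGen.refl

lemma Linked.trans {u v w : V} (h : G.Linked W F u v) (h' : G.Linked W F v w) :
    G.Linked W F u w := Relation.ReflTransGen.trans h h'

lemma Linked.edge {u v : V} {e : E} (he : e ∈ F) (hv : v ∈ W) (h : G.Joins e u v) :
    G.Linked W F u v := Relation.ReflTransGen.single ⟨hv, e, he, h⟩

lemma Linked.symm {u v : V} (hu : u ∈ W) (h : G.Linked W F u v) : G.Linked W F v u := by
  induction h with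
  | refl => exact Linked.refl _
  | @tail b c hab hbc ih =>
    obtain ⟨hc, e, he, hj⟩ := hbc
    have hb : b ∈ W := by
      rcases hab.cases_tail with h | ⟨d, -, hd, -⟩
      · rw [h]; exact hu
      · exact hd
    exact (Linked.edge he hb (Joins.symm hj)).trans ih

end linked

lemma joins_hor (x y : ZMod N) : (Gr N m).Joins (.hor x y) (.grid x y) (.grid (x + 1) y) :=
  Or.inl ⟨rfl, rfl⟩

lemma joins_ver (x y : ZMod N) : (Gr N m).Joins (.ver x y) (.grid x y) (.grid x (y + 1)) :=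
  Or.inl ⟨rfl, rfl⟩

lemma joins_tri (i : Fin m) (j : Fin 3) :
    (Gr N m).Joins (.tri i j) (.lay i (j + 1)) (.lay i (j + 2)) := Or.inl ⟨rfl, rfl⟩

lemma joins_rad (i : Fin m) (j : Fin 3) :
    (Gr N m).Joins (.rad i j) (node i.castSucc j) (.lay i j) := Or.inl ⟨rfl, rfl⟩

/-- horizontal path -/
lemma path_hor {W : Set (Vx N m)} {F : Set (Ex N m)} (y a : ZMod N) (n : ℕ)
    (hW : ∀ k : ℕ, k ≤ n → Vx.grid (a + (k : ZMod N)) y ∈ W)
    (hF : ∀ k : ℕ, k < n → Ex.hor (a + (k : ZMod N)) y ∈ F) :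
    (Gr N m).Linked W F (.grid a y) (.grid (a + (n : ZMod N)) y) := by
  induction n with
  | zero => simpa using Linked.refl _
  | succ n ih =>
    refine (ih (fun k hk => hW k (by omega)) (fun k hk => hF k (by omega))).trans ?_
    have h := joins_hor (m := m) (a + (n : ZMod N)) y
    have h2 : (a + ((n + 1 : ℕ) : ZMod N)) = a + n + 1 := by push_cast; ring
    rw [h2]
    refine Linked.edge (hF n (by omega)) ?_ h
    rw [← h2]
    exact hW (n + 1) le_rfl

/-- vertical path -/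
lemma path_ver {W : Set (Vx N m)} {F : Set (Ex N m)} (x a : ZMod N) (n : ℕ)
    (hW : ∀ k : ℕ, k ≤ n → Vx.grid x (a + (k : ZMod N)) ∈ W)
    (hF : ∀ k : ℕ, k < n → Ex.ver x (a + (k : ZMod N)) ∈ F) :
    (Gr N m).Linked W F (.grid x a) (.grid x (a + (n : ZMod N))) := by
  induction n with
  | zero => simpa using Linked.refl _
  | succ n ih =>
    refine (ih (fun k hk => hW k (by omega)) (fun k hk => hF k (by omega))).trans ?_
    have h := joins_ver (m := m) x (a + (n : ZMod N))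
    have h2 : (a + ((n + 1 : ℕ) : ZMod N)) = a + n + 1 := by push_cast; ring
    rw [h2]
    refine Linked.edge (hF n (by omega)) ?_ h
    rw [← h2]
    exact hW (n + 1) le_rfl

variable [NeZero N]

lemma natCast_ne_zero {k : ℕ} (h1 : 0 < k) (h2 : k < N) : ((k : ℕ) : ZMod N) ≠ 0 := by
  intro h
  rw [ZMod.natCast_eq_zero_iff] at h
  exact absurd (Nat.le_of_dvd h1 h) (by omega)

/-- a row in which at most one edge is missing is connected -/
lemma row_linked {F : Set (Ex N m)} (y x0 : ZMod N) (h : ∀ x ≠ x0, Ex.hor x y ∈ F)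
    (x x' : ZMod N) : (Gr N m).Linked Set.univ F (.grid x y) (.grid x' y) := by
  have key : ∀ z : ZMod N, (Gr N m).Linked Set.univ F (.grid (x0 + 1) y) (.grid z y) := by
    intro z
    have hz : x0 + 1 + (((z - (x0 + 1)).val : ℕ) : ZMod N) = z := by
      rw [ZMod.natCast_zmod_val]; ring
    have hp := path_hor (W := Set.univ) (F := F) y (x0 + 1) (z - (x0 + 1)).val
      (fun _ _ => Set.mem_univ _) (by
        intro k hk
        apply h
        intro h2
        have h3 : ((k + 1 : ℕ) : ZMod N) = 0 := by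
          have : x0 + 1 + (k : ZMod N) - x0 = 0 := by rw [h2]; ring
          push_cast
          rw [← this]; ring
        have h4 := (z - (x0 + 1)).val_lt
        exact natCast_ne_zero (by omega) (by omega) h3)
    rwa [hz] at hp
  exact (Linked.symm (Set.mem_univ _) (key x)).trans (key x')

lemma col_linked {F : Set (Ex N m)} (x y0 : ZMod N) (h : ∀ y ≠ y0, Ex.ver x y ∈ F)
    (y y' : ZMod N) : (Gr N m).Linked Set.univ F (.grid x y) (.grid x y') := by
  have key : ∀ z : ZMod N, (Gr N m).Linked Set.univ F (.grid x (y0 + 1)) (.grid x z) := by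
    intro z
    have hz : y0 + 1 + (((z - (y0 + 1)).val : ℕ) : ZMod N) = z := by
      rw [ZMod.natCast_zmod_val]; ring
    have hp := path_ver (W := Set.univ) (F := F) x (y0 + 1) (z - (y0 + 1)).val
      (fun _ _ => Set.mem_univ _) (by
        intro k hk
        apply h
        intro h2
        have h3 : ((k + 1 : ℕ) : ZMod N) = 0 := by
          have : y0 + 1 + (k : ZMod N) - y0 = 0 := by rw [h2]; ring
          push_cast
          rw [← this]; ring
        have h4 := (z - (y0 + 1)).val_lt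
        exact natCast_ne_zero (by omega) (by omega) h3)
    rwa [hz] at hp
  exact (Linked.symm (Set.mem_univ _) (key y)).trans (key y')

/-- a set of at most two edges does not contain three different edges -/
lemma no_three {E : Type} {F : Set E} (h : F.encard ≤ 2) {a b c : E} (ha : a ∈ F) (hb : b ∈ F)
    (hc : c ∈ F) (hab : a ≠ b) (hac : a ≠ c) (hbc : b ≠ c) : False := by
  have h1 : ({a, b, c} : Set E) ⊆ F := by
    intro x hx
    rcases hx with rfl | rfl | rfl <;> assumption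
  have h2 := (Set.encard_le_encard h1).trans h
  rw [Set.encard_insert_of_notMem (by simp [hab, hac]),
    Set.encard_pair hbc] at h2
  norm_num at h2

/-- the grid part stays connected when at most two edges are deleted -/
lemma grid_linked (hN : 2 ≤ N) {F : Set (Ex N m)} (hF : F.encard ≤ 2) (x y x' y' : ZMod N) :
    (Gr N m).Linked Set.univ Fᶜ (.grid x y) (.grid x' y') := by
  have h10 : (1 : ZMod N) ≠ 0 := by
    have := natCast_ne_zero (N := N) (k := 1) one_pos (by omega)
    simpa using this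
  by_cases hrow : ∀ y, ∃ x0, ∀ x ≠ x0, Ex.hor x y ∈ Fᶜ
  · -- all rows are good, some column is good
    have hcol : ∃ x, ∃ y0, ∀ y ≠ y0, (Ex.ver x y : Ex N m) ∈ Fᶜ := by
      by_contra hno
      push Not at hno
      obtain ⟨y1, -, h1⟩ := hno 0 0
      obtain ⟨y2, h21, h2⟩ := hno 0 y1
      obtain ⟨y3, -, h3⟩ := hno 1 0
      simp only [Set.mem_compl_iff, not_not] at h1 h2 h3
      refine no_three hF h1 h2 h3 ?_ ?_ ?_
      · intro h; injection h with _ h; exact h21 h.symm
      · intro h; injection h with h _; exact h10 h.symm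
      · intro h; injection h with h _; exact h10 h.symm
    obtain ⟨x1, y0, hx1⟩ := hcol
    obtain ⟨a, ha⟩ := hrow y
    obtain ⟨b, hb⟩ := hrow y'
    exact ((row_linked y a ha x x1).trans (col_linked x1 y0 hx1 y y')).trans
      (row_linked y' b hb x1 x')
  · push Not at hrow
    obtain ⟨y1, hy1⟩ := hrow
    obtain ⟨a, -, ha⟩ := hy1 0
    obtain ⟨b, hba, hb⟩ := hy1 a
    simp only [Set.mem_compl_iff, not_not] at ha hb
    have hab : (Ex.hor a y1 : Ex N m) ≠ Ex.hor b y1 := by
      intro h; injection h with h _; exact hba h.symm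
    have hver : ∀ x y, (Ex.ver x y : Ex N m) ∈ Fᶜ := by
      intro x y h
      exact no_three hF ha hb h hab (by intro h; cases h) (by intro h; cases h)
    have hhor : ∀ x, (Ex.hor x (y1 + 1) : Ex N m) ∈ Fᶜ := by
      intro x h
      have hne : y1 ≠ y1 + 1 := by
        intro h; exact h10 (by simpa using h.symm)
      exact no_three hF ha hb h hab (by intro h; injection h with _ h; exact hne h)
        (by intro h; injection h with _ h; exact hne h)
    exact ((col_linked x 0 (fun y _ => hver x y) y (y1 + 1)).trans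
      (row_linked (y1 + 1) 0 (fun x _ => hhor x) x x')).trans
      (col_linked x' 0 (fun y _ => hver x' y) (y1 + 1) y')

omit [NeZero N] in
lemma node_zero (j : Fin 3) : (node 0 j : Vx N m) = corner j := rfl

omit [NeZero N] in
lemma node_succ (i : Fin m) (j : Fin 3) : (node i.succ j : Vx N m) = .lay i j := rfl

omit [NeZero N] in
/-- a ray without deleted edges is connected -/
lemma ray_linked {F : Set (Ex N m)} (j : Fin 3) (h : ∀ i, Ex.rad i j ∈ F) (n : Fin (m + 1)) :
    (Gr N m).Linked Set.univ F (corner j) (node n j) := by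
  induction n using Fin.induction with
  | zero => exact Linked.refl _
  | succ i ih => exact ih.trans (Linked.edge (h i) (Set.mem_univ _) (joins_rad i j))

lemma fin3_third : ∀ j j0 k : Fin 3, k ≠ j → k ≠ j0 → j ≠ j0 →
    (j = k + 1 ∧ j0 = k + 2) ∨ (j = k + 2 ∧ j0 = k + 1) := by
  decide

lemma fin3_uniq (j j' k k2 : Fin 3) (h1 : j' ≠ j) (h2 : k ≠ j) (h3 : k ≠ j') (h4 : k2 ≠ j)
    (h5 : k2 ≠ j') : k = k2 := by
  have a1 := j.isLt
  have a2 := j'.isLt
  have a3 := k.isLt
  have a4 := k2.isLt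
  simp only [ne_eq, Fin.ext_iff] at *
  omega

lemma fin3_exists : ∀ j j0 : Fin 3, ∃ k : Fin 3, k ≠ j ∧ k ≠ j0 := by
  decide

omit [NeZero N] in
lemma corner_grid (j : Fin 3) : ∃ x y, (corner j : Vx N m) = .grid x y := by
  fin_cases j
  · exact ⟨0, 0, rfl⟩
  · exact ⟨1, 0, rfl⟩
  · exact ⟨1, 1, rfl⟩

theorem threeEdgeConnected (hN : 2 ≤ N) : (Gr N m).ThreeEdgeConnected := by
  have h10 : (1 : ZMod N) ≠ 0 := by
    have := natCast_ne_zero (N := N) (k := 1) one_pos (by omega)
    simpa using this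
  refine ⟨⟨.grid 0 0, .grid 1 0, ?_⟩, ?_⟩
  · intro h; injection h with h _; exact h10 h.symm
  intro F hF
  -- everything is linked to the grid
  have hlay : ∀ i j, ∃ x y, (Gr N m).Linked Set.univ Fᶜ (.lay i j) (.grid x y) := by
    intro i j
    have hray : ∀ j, (∀ i, (Ex.rad i j : Ex N m) ∈ Fᶜ) →
        ∀ i, ∃ x y, (Gr N m).Linked Set.univ Fᶜ (.lay i j) (.grid x y) := by
      intro j hj i
      obtain ⟨x, y, hc⟩ := corner_grid (N := N) (m := m) j
      refine ⟨x, y, ?_⟩
      rw [← hc, ← node_succ]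
      exact Linked.symm (Set.mem_univ _) (ray_linked j hj i.succ)
    have hex : ∃ j0, ∀ i, (Ex.rad i j0 : Ex N m) ∈ Fᶜ := by
      by_contra hno
      push Not at hno
      obtain ⟨a, ha⟩ := hno 0
      obtain ⟨b, hb⟩ := hno 1
      obtain ⟨c, hc⟩ := hno 2
      simp only [Set.mem_compl_iff, not_not] at ha hb hc
      refine no_three hF ha hb hc ?_ ?_ ?_ <;> (intro h; injection h with _ h; revert h; decide)
    obtain ⟨j0, hj0⟩ := hex
    by_cases hjj : j = j0
    · subst hjj; exact hray j hj0 i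
    -- the two ways around the triangle
    have hmem : ∀ v : Vx N m, v ∈ (Set.univ : Set (Vx N m)) := fun _ => Set.mem_univ _
    obtain ⟨x, y, hxy⟩ := hray j0 hj0 i
    by_cases hall : ∀ i, (Ex.rad i j : Ex N m) ∈ Fᶜ
    · exact hray j hall i
    · push Not at hall
      obtain ⟨i1, hi1⟩ := hall
      simp only [Set.mem_compl_iff, not_not] at hi1
      -- at most one edge of the triangles is deleted
      have hone : ∀ k k' : Fin 3, k ≠ k' → (Ex.tri i k : Ex N m) ∈ F → (Ex.tri i k' : Ex N m) ∉ F := by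
        intro k k' hk h1 h2
        exact no_three hF hi1 h1 h2 (by intro h; cases h) (by intro h; cases h)
          (by intro h; injection h with _ h; exact hk h)
      refine ⟨x, y, Linked.trans ?_ hxy⟩
      -- j ≠ j0
      have hthird : ∀ k : Fin 3, k ≠ j → k ≠ j0 → (Gr N m).Joins (.tri i k) (.lay i j) (.lay i j0) := by
        intro k h1 h2
        rcases fin3_third j j0 k h1 h2 hjj with ⟨h3, h4⟩ | ⟨h3, h4⟩
        · rw [h3, h4]; exact joins_tri i k
        · rw [h3, h4]; exact Joins.symm (joins_tri i k)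
      obtain ⟨k, hk1, hk2⟩ := fin3_exists j j0
      by_cases hk : (Ex.tri i k : Ex N m) ∈ F
      · have e1 : (Gr N m).Joins (.tri i j0) (.lay i j) (.lay i k) := by
          rcases fin3_third j k j0 (Ne.symm hjj) (Ne.symm hk2) (Ne.symm hk1) with
            ⟨h3, h4⟩ | ⟨h3, h4⟩
          · rw [h3, h4]; exact joins_tri i j0
          · rw [h3, h4]; exact Joins.symm (joins_tri i j0)
        have e2 : (Gr N m).Joins (.tri i j) (.lay i k) (.lay i j0) := by
          rcases fin3_third k j0 j (Ne.symm hk1) hjj hk2 with ⟨h3, h4⟩ | ⟨h3, h4⟩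
          · rw [h3, h4]; exact joins_tri i j
          · rw [h3, h4]; exact Joins.symm (joins_tri i j)
        exact (Linked.edge (hone k j0 hk2 hk) (hmem _) e1).trans
          (Linked.edge (hone k j hk1 hk) (hmem _) e2)
      · exact Linked.edge hk (hmem _) (hthird k hk1 hk2)
  have hall : ∀ v : Vx N m, ∃ x y, (Gr N m).Linked Set.univ Fᶜ v (.grid x y) := by
    rintro (⟨x, y⟩ | ⟨i, j⟩)
    · exact ⟨x, y, Linked.refl _⟩
    · exact hlay i j
  intro u _ v _
  obtain ⟨x, y, hu⟩ := hall u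
  obtain ⟨x', y', hv⟩ := hall v
  exact (hu.trans (grid_linked hN hF x y x' y')).trans (Linked.symm (Set.mem_univ _) hv)

/-! ### the `K₅` minor -/

/-- branch sets: two columns and three parts of the rest -/
def br (N m : ℕ) (i : Fin 5) : Set (Vx N m) :=
  {v | ∃ x y : ZMod N, v = .grid x y ∧ (![x = 0, x = 1, x ≠ 0 ∧ x ≠ 1 ∧ y = 0,
    x ≠ 0 ∧ x ≠ 1 ∧ y = 1, x ≠ 0 ∧ x ≠ 1 ∧ y ≠ 0 ∧ y ≠ 1] i)}

lemma two_ne (hN : 3 ≤ N) : (2 : ZMod N) ≠ 0 ∧ (2 : ZMod N) ≠ 1 ∧ (1 : ZMod N) ≠ 0 ∧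
    (-1 : ZMod N) ≠ 0 ∧ (-1 : ZMod N) ≠ 1 := by
  have h1 := natCast_ne_zero (N := N) (k := 1) one_pos (by omega)
  have h2 := natCast_ne_zero (N := N) (k := 2) two_pos (by omega)
  push_cast at h1 h2
  refine ⟨h2, ?_, h1, ?_, ?_⟩
  · intro h; apply h1
    have : (1 : ZMod N) = 2 - 1 := by ring
    rw [this, h]; ring
  · intro h; apply h1; rw [← neg_neg (1 : ZMod N), h]; ring
  · intro h; apply h2
    have : (2 : ZMod N) = 1 + 1 := by ring
    rw [this]; nth_rewrite 1 [← h]; ring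

/-- the residues different from `0` and `1` are `2, 3, …, N - 1` -/
lemma two_add (_hN : 3 ≤ N) (x : ZMod N) (h0 : x ≠ 0) (h1 : x ≠ 1) :
    ∃ n : ℕ, x = 2 + n ∧ ∀ k : ℕ, k ≤ n → (2 + (k : ZMod N)) ≠ 0 ∧ (2 + (k : ZMod N)) ≠ 1 := by
  have hv : x.val < N := x.val_lt
  have hv2 : 2 ≤ x.val := by
    by_contra hlt
    have : x.val = 0 ∨ x.val = 1 := by omega
    rcases this with h | h
    · exact h0 ((ZMod.val_eq_zero x).1 h)
    · apply h1
      rw [← ZMod.natCast_zmod_val x, h]; simp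
  refine ⟨x.val - 2, ?_, ?_⟩
  · rw [Nat.cast_sub hv2, ZMod.natCast_zmod_val]; push_cast; ring
  · intro k hk
    constructor
    · intro h
      apply natCast_ne_zero (N := N) (k := 2 + k) (by omega) (by omega)
      push_cast; exact h
    · intro h
      apply natCast_ne_zero (N := N) (k := 1 + k) (by omega) (by omega)
      push_cast
      have : (1 : ZMod N) + k = (2 + k) - 1 := by ring
      rw [this, h]; ring

lemma row_part (hN : 3 ≤ N) (W : Set (Vx N m)) (y : ZMod N)
    (hW : ∀ x : ZMod N, x ≠ 0 → x ≠ 1 → Vx.grid x y ∈ W) (x : ZMod N) (h0 : x ≠ 0) (h1 : x ≠ 1) :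
    (Gr N m).Linked W Set.univ (.grid 2 y) (.grid x y) := by
  obtain ⟨n, rfl, hn⟩ := two_add hN x h0 h1
  exact path_hor y 2 n (fun k hk => hW _ (hn k hk).1 (hn k hk).2) (fun _ _ => Set.mem_univ _)

lemma col_part (hN : 3 ≤ N) (W : Set (Vx N m)) (x : ZMod N)
    (hW : ∀ y : ZMod N, y ≠ 0 → y ≠ 1 → Vx.grid x y ∈ W) (y : ZMod N) (h0 : y ≠ 0) (h1 : y ≠ 1) :
    (Gr N m).Linked W Set.univ (.grid x 2) (.grid x y) := by
  obtain ⟨n, rfl, hn⟩ := two_add hN y h0 h1
  exact path_ver x 2 n (fun k hk => hW _ (hn k hk).1 (hn k hk).2) (fun _ _ => Set.mem_univ _)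

theorem hasK5Minor (hN : 3 ≤ N) : (Gr N m).HasK5Minor := by
  obtain ⟨h20, h21, h10, hm0, hm1⟩ := two_ne hN
  refine ⟨br N m, ⟨?_, ?_, ?_⟩, ?_⟩
  · intro i
    fin_cases i
    · exact ⟨.grid 0 0, 0, 0, rfl, rfl⟩
    · exact ⟨.grid 1 0, 1, 0, rfl, rfl⟩
    · exact ⟨.grid 2 0, 2, 0, rfl, h20, h21, rfl⟩
    · exact ⟨.grid 2 1, 2, 1, rfl, h20, h21, rfl⟩
    · exact ⟨.grid 2 2, 2, 2, rfl, h20, h21, h20, h21⟩
  · intro i
    fin_cases i
    · rintro _ ⟨x, y, rfl, hx⟩ _ ⟨x', y', rfl, hx'⟩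
      change x = 0 at hx
      change x' = 0 at hx'
      subst hx hx'
      have h : ∀ z : ZMod N, (Gr N m).Linked (br N m 0) Set.univ (.grid 0 0) (.grid 0 z) := by
        intro z
        have := path_ver (m := m) (W := br N m 0) (F := Set.univ) 0 0 z.val
          (fun k _ => ⟨0, _, rfl, rfl⟩) (fun _ _ => Set.mem_univ _)
        simpa using this
      exact (Linked.symm (show Vx.grid 0 0 ∈ br N m 0 from ⟨0, 0, rfl, rfl⟩) (h y)).trans (h y')
    · rintro _ ⟨x, y, rfl, hx⟩ _ ⟨x', y', rfl, hx'⟩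
      change x = 1 at hx
      change x' = 1 at hx'
      subst hx hx'
      have h : ∀ z : ZMod N, (Gr N m).Linked (br N m 1) Set.univ (.grid 1 0) (.grid 1 z) := by
        intro z
        have := path_ver (m := m) (W := br N m 1) (F := Set.univ) 1 0 z.val
          (fun k _ => ⟨1, _, rfl, rfl⟩) (fun _ _ => Set.mem_univ _)
        simpa using this
      exact (Linked.symm (show Vx.grid 1 0 ∈ br N m 1 from ⟨1, 0, rfl, rfl⟩) (h y)).trans (h y')
    · rintro _ ⟨x, y, rfl, hx0, hx1, hy⟩ _ ⟨x', y', rfl, hx0', hx1', hy'⟩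
      subst hy hy'
      have h := row_part (m := m) hN (br N m 2) 0 (fun x h0 h1 => ⟨x, 0, rfl, h0, h1, rfl⟩)
      exact (Linked.symm (show Vx.grid 2 0 ∈ br N m 2 from ⟨2, 0, rfl, h20, h21, rfl⟩)
        (h x hx0 hx1)).trans (h x' hx0' hx1')
    · rintro _ ⟨x, y, rfl, hx0, hx1, hy⟩ _ ⟨x', y', rfl, hx0', hx1', hy'⟩
      subst hy hy'
      have h := row_part (m := m) hN (br N m 3) 1 (fun x h0 h1 => ⟨x, 1, rfl, h0, h1, rfl⟩)
      exact (Linked.symm (show Vx.grid 2 1 ∈ br N m 3 from ⟨2, 1, rfl, h20, h21, rfl⟩)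
        (h x hx0 hx1)).trans (h x' hx0' hx1')
    · rintro _ ⟨x, y, rfl, hx0, hx1, hy0, hy1⟩ _ ⟨x', y', rfl, hx0', hx1', hy0', hy1'⟩
      have h : ∀ x y : ZMod N, x ≠ 0 → x ≠ 1 → y ≠ 0 → y ≠ 1 →
          (Gr N m).Linked (br N m 4) Set.univ (.grid 2 2) (.grid x y) := by
        intro x y h0 h1 h2 h3
        refine Linked.trans (col_part (m := m) hN (br N m 4) 2
          (fun y h2 h3 => ⟨2, y, rfl, h20, h21, h2, h3⟩) y h2 h3) ?_
        exact row_part (m := m) hN (br N m 4) y
          (fun x h0 h1 => ⟨x, y, rfl, h0, h1, h2, h3⟩) x h0 h1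
      exact (Linked.symm (show Vx.grid 2 2 ∈ br N m 4 from ⟨2, 2, rfl, h20, h21, h20, h21⟩)
        (h x y hx0 hx1 hy0 hy1)).trans
        (h x' y' hx0' hx1' hy0' hy1')
  · intro i j hij
    rw [Set.disjoint_left]
    rintro _ ⟨x, y, rfl, h⟩ ⟨x', y', he, h'⟩
    injection he with hx hy
    subst hx hy
    fin_cases i <;> fin_cases j <;> simp at h h' hij <;> simp_all
  · have hsymm : ∀ A B : Set (Vx N m), (Gr N m).Touch A B → (Gr N m).Touch B A := by
      rintro A B ⟨e, u, hu, v, hv, h⟩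
      exact ⟨e, v, hv, u, hu, Joins.symm h⟩
    have e01 : (Gr N m).Touch (br N m 0) (br N m 1) :=
      ⟨.hor 0 0, .grid 0 0, ⟨0, 0, rfl, rfl⟩, .grid 1 0, ⟨1, 0, rfl, rfl⟩, by
        simpa using joins_hor (m := m) (0 : ZMod N) 0⟩
    have hz : (-1 : ZMod N) + 1 = 0 := by ring
    have ho : (1 : ZMod N) + 1 = 2 := by ring
    have e02 : (Gr N m).Touch (br N m 2) (br N m 0) :=
      ⟨.hor (-1) 0, .grid (-1) 0, ⟨-1, 0, rfl, hm0, hm1, rfl⟩, .grid 0 0, ⟨0, 0, rfl, rfl⟩, by
        simpa [hz] using joins_hor (m := m) (-1 : ZMod N) 0⟩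
    have e03 : (Gr N m).Touch (br N m 3) (br N m 0) :=
      ⟨.hor (-1) 1, .grid (-1) 1, ⟨-1, 1, rfl, hm0, hm1, rfl⟩, .grid 0 1, ⟨0, 1, rfl, rfl⟩, by
        simpa [hz] using joins_hor (m := m) (-1 : ZMod N) 1⟩
    have e04 : (Gr N m).Touch (br N m 4) (br N m 0) :=
      ⟨.hor (-1) 2, .grid (-1) 2, ⟨-1, 2, rfl, hm0, hm1, h20, h21⟩, .grid 0 2, ⟨0, 2, rfl, rfl⟩, by
        simpa [hz] using joins_hor (m := m) (-1 : ZMod N) 2⟩
    have e12 : (Gr N m).Touch (br N m 1) (br N m 2) :=
      ⟨.hor 1 0, .grid 1 0, ⟨1, 0, rfl, rfl⟩, .grid 2 0, ⟨2, 0, rfl, h20, h21, rfl⟩, by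
        simpa [ho] using joins_hor (m := m) (1 : ZMod N) 0⟩
    have e13 : (Gr N m).Touch (br N m 1) (br N m 3) :=
      ⟨.hor 1 1, .grid 1 1, ⟨1, 1, rfl, rfl⟩, .grid 2 1, ⟨2, 1, rfl, h20, h21, rfl⟩, by
        simpa [ho] using joins_hor (m := m) (1 : ZMod N) 1⟩
    have e14 : (Gr N m).Touch (br N m 1) (br N m 4) :=
      ⟨.hor 1 2, .grid 1 2, ⟨1, 2, rfl, rfl⟩, .grid 2 2, ⟨2, 2, rfl, h20, h21, h20, h21⟩, by
        simpa [ho] using joins_hor (m := m) (1 : ZMod N) 2⟩
    have e23 : (Gr N m).Touch (br N m 2) (br N m 3) :=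
      ⟨.ver 2 0, .grid 2 0, ⟨2, 0, rfl, h20, h21, rfl⟩, .grid 2 1, ⟨2, 1, rfl, h20, h21, rfl⟩, by
        simpa using joins_ver (m := m) (2 : ZMod N) 0⟩
    have e34 : (Gr N m).Touch (br N m 3) (br N m 4) :=
      ⟨.ver 2 1, .grid 2 1, ⟨2, 1, rfl, h20, h21, rfl⟩, .grid 2 2,
        ⟨2, 2, rfl, h20, h21, h20, h21⟩, by
        simpa [ho] using joins_ver (m := m) (2 : ZMod N) 1⟩
    have e42 : (Gr N m).Touch (br N m 4) (br N m 2) :=
      ⟨.ver 2 (-1), .grid 2 (-1), ⟨2, -1, rfl, h20, h21, hm0, hm1⟩, .grid 2 0,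
        ⟨2, 0, rfl, h20, h21, rfl⟩, by
        simpa [hz] using joins_ver (m := m) (2 : ZMod N) (-1)⟩
    intro i j hij
    fin_cases i <;> fin_cases j <;>
      first
      | exact absurd rfl hij
      | assumption
      | exact hsymm _ _ (by assumption)

end Pool.Agent.R177.Per
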