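import Mathlib
import Pool.Agent.R177.Per.Graph

/-!
# Induced cycles of the toroidal grid with nested triangles
-/

namespace Pool.Agent.R177.Per

open MGraph

variable {N m : ℕ}

set_option linter.unusedSectionVars false

/-- neighbours of a vertex in a layer -/
lemma nbr {e : Ex N m} {i : Fin m} {j : Fin 3} {w : Vx N m}
    (h : (Gr N m).Joins e (.lay i j) w) :
    (∃ j' k, j' ≠ j ∧ k ≠ j ∧ k ≠ j' ∧ w = .lay i j' ∧ e = .tri i k) ∨
    (w = node i.castSucc j ∧ e = .rad i j) ∨
    (∃ i' : Fin m, i'.val = i.val + 1 ∧ w = .lay i' j ∧ e = .rad i' j) := by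
  have hf1 : ∀ k : Fin 3, k + 2 ≠ k + 1 := by decide
  have hf2 : ∀ k : Fin 3, k ≠ k + 1 := by decide
  have hf3 : ∀ k : Fin 3, k ≠ k + 2 := by decide
  rcases e with ⟨x, y⟩ | ⟨x, y⟩ | ⟨i1, k⟩ | ⟨i1, k⟩
  · rcases h with ⟨h, -⟩ | ⟨-, h⟩ <;> cases h
  · rcases h with ⟨h, -⟩ | ⟨-, h⟩ <;> cases h
  · left
    rcases h with ⟨h, rfl⟩ | ⟨rfl, h⟩
    · change Vx.lay i1 (k + 1) = _ at h
      injection h with h1 h2
      subst h1 h2
      exact ⟨k + 2, k, hf1 k, hf2 k, hf3 k, rfl, rfl⟩
    · change Vx.lay i1 (k + 2) = _ at h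
      injection h with h1 h2
      subst h1 h2
      exact ⟨k + 1, k, (hf1 k).symm, hf3 k, hf2 k, rfl, rfl⟩
  · rcases h with ⟨h, rfl⟩ | ⟨rfl, h⟩
    · right; right
      change node i1.castSucc k = _ at h
      rcases Fin.eq_zero_or_eq_succ i1.castSucc with h0 | ⟨i2, h2⟩
      · rw [h0, node_zero] at h
        obtain ⟨x, y, hxy⟩ := corner_grid (N := N) (m := m) k
        rw [hxy] at h
        cases h
      · rw [h2, node_succ] at h
        injection h with h3 h4
        subst h3 h4
        refine ⟨i1, ?_, rfl, rfl⟩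
        have := congrArg Fin.val h2
        simpa using this
    · right; left
      change Vx.lay i1 k = _ at h
      injection h with h1 h2
      subst h1 h2
      exact ⟨rfl, rfl⟩

/-- layer vertices have no parallel edges -/
lemma nbr_unique {e e' : Ex N m} {i : Fin m} {j : Fin 3} {w : Vx N m}
    (h1 : (Gr N m).Joins e (.lay i j) w) (h2 : (Gr N m).Joins e' (.lay i j) w) : e = e' := by
  have hnode : ∀ (j j' : Fin 3) (i' : Fin m), i.val ≤ i'.val →
      (Vx.lay i' j' : Vx N m) ≠ node i.castSucc j := by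
    intro j j' i' hi h
    rcases Fin.eq_zero_or_eq_succ i.castSucc with h0 | ⟨i2, h3⟩
    · rw [h0, node_zero] at h
      obtain ⟨x, y, hxy⟩ := corner_grid (N := N) (m := m) j
      rw [hxy] at h
      cases h
    · rw [h3, node_succ] at h
      injection h with h4 _
      have := congrArg Fin.val h3
      simp only [Fin.val_castSucc, Fin.val_succ] at this
      rw [h4] at hi
      omega
  rcases nbr h1 with ⟨j', k, hj, hk, hkj, hw, he⟩ | ⟨hw, he⟩ | ⟨i', hi, hw, he⟩
  · rcases nbr h2 with ⟨j2, k2, hj2, hk2, hkj2, hw2, he2⟩ | ⟨hw2, he2⟩ | ⟨i2, hi2, hw2, he2⟩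
    · rw [he, he2]
      rw [hw] at hw2
      injection hw2 with _ hw2
      subst hw2
      rw [fin3_uniq j j' k k2 hj hk hkj hk2 hkj2]
    · exact absurd (hw.symm.trans hw2) (hnode _ _ _ le_rfl)
    · rw [hw] at hw2
      injection hw2 with hw2 _
      rw [← hw2] at hi2; omega
  · rcases nbr h2 with ⟨j2, k2, hj2, hk2, hkj2, hw2, he2⟩ | ⟨hw2, he2⟩ | ⟨i2, hi2, hw2, he2⟩
    · exact absurd (hw2.symm.trans hw) (hnode _ _ _ le_rfl)
    · rw [he, he2]
    · exact absurd (hw2.symm.trans hw) (hnode _ _ _ (by omega))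
  · rcases nbr h2 with ⟨j2, k2, hj2, hk2, hkj2, hw2, he2⟩ | ⟨hw2, he2⟩ | ⟨i2, hi2, hw2, he2⟩
    · rw [hw] at hw2
      injection hw2 with hw2 _
      rw [hw2] at hi; omega
    · exact absurd (hw.symm.trans hw2) (hnode _ _ _ (by omega))
    · rw [hw] at hw2
      injection hw2 with hw2 _
      rw [he, he2, hw2]

/-- level of a vertex: grid vertices have level `0`, layer `i` has level `i + 1` -/
def lev : Vx N m → ℕ
  | .grid _ _ => 0
  | .lay i _ => i.val + 1

lemma lev_node (i : Fin m) (j : Fin 3) : lev (node i.castSucc j : Vx N m) = i.val := by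
  rcases Fin.eq_zero_or_eq_succ i.castSucc with h0 | ⟨i2, h2⟩
  · rw [h0, node_zero]
    obtain ⟨x, y, hxy⟩ := corner_grid (N := N) (m := m) j
    rw [hxy]
    have := congrArg Fin.val h0
    simp only [Fin.val_castSucc, Fin.val_zero] at this
    simp [lev, this]
  · rw [h2, node_succ]
    have := congrArg Fin.val h2
    simp only [Fin.val_castSucc, Fin.val_succ] at this
    simp [lev, this]

/-- the vertices of a layer -/
def layW (i : Fin m) : Set (Vx N m) := {v | ∃ j, v = .lay i j}

/-- the vertices of a quadrangle between two layers -/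
def quadW (i : Fin m) (k : Fin 3) : Set (Vx N m) :=
  {v | ∃ j, j ≠ k ∧ (v = .lay i j ∨ v = node i.castSucc j)}

/-- data of an induced cycle, in the form used below -/
structure Cyc (N m : ℕ) (n : ℕ) (v : ZMod n → Vx N m) (e : ZMod n → Ex N m) : Prop where
  vinj : Function.Injective v
  einj : Function.Injective e
  joins : ∀ i, (Gr N m).Joins (e i) (v i) (v (i + 1))
  ind : ∀ f, (Gr N m).src f ∈ Set.range v → (Gr N m).tgt f ∈ Set.range v → f ∈ Set.range e

variable {n : ℕ} {v : ZMod n → Vx N m} {e : ZMod n → Ex N m}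

lemma Cyc.rev (h : Cyc N m n v e) : Cyc N m n (fun i => v (-i)) (fun i => e (-i - 1)) where
  vinj := fun a b hab => neg_injective (h.vinj hab)
  einj := fun a b hab => by
    have := h.einj hab
    have h2 : a = b := by simpa using this
    exact h2
  joins := fun i => by
    have := h.joins (-i - 1)
    have h2 : -i - 1 + 1 = -i := by ring
    have h3 : -(i + 1) = -i - 1 := by ring
    rw [h2] at this
    show (Gr N m).Joins (e (-i - 1)) (v (-i)) (v (-(i + 1)))
    rw [h3]
    exact Joins.symm this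
  ind := fun f hs ht => by
    have h1 : Set.range (fun i : ZMod n => v (-i)) = Set.range v :=
      (Equiv.neg (ZMod n)).surjective.range_comp v
    have h2 : Set.range (fun i : ZMod n => e (-i - 1)) = Set.range e :=
      ((Equiv.neg (ZMod n)).trans (Equiv.subRight 1)).surjective.range_comp e
    rw [h1] at hs ht
    rw [h2]
    exact h.ind f hs ht

lemma Cyc.range_rev : Set.range (fun i : ZMod n => v (-i)) = Set.range v :=
  (Equiv.neg (ZMod n)).surjective.range_comp v

lemma Cyc.prev (h : Cyc N m n v e) (i : ZMod n) :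
    (Gr N m).Joins (e (i - 1)) (v i) (v (i - 1)) := by
  have := h.joins (i - 1)
  rw [sub_add_cancel] at this
  exact Joins.symm this

/-- at a layer vertex, the two neighbours along the cycle are different, and different from it -/
lemma Cyc.ne (h : Cyc N m n v e) (i : ZMod n) (l : Fin m) (j : Fin 3) (hv : v i = .lay l j) :
    v (i + 1) ≠ v (i - 1) ∧ v (i + 1) ≠ v i := by
  have h1 := h.joins i
  have h2 := h.prev i
  rw [hv] at h1 h2
  have hne : v (i + 1) ≠ v i := by
    rw [hv]
    intro h3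
    rw [h3] at h1
    rcases nbr h1 with ⟨j', k, hj, -, -, hw, -⟩ | ⟨hw, -⟩ | ⟨i', hi, hw, -⟩
    · injection hw with _ hw; exact hj hw.symm
    · have := congrArg lev hw
      rw [lev_node] at this
      simp [lev] at this
    · injection hw with hw _
      rw [← hw] at hi; omega
  refine ⟨fun h3 => ?_, hne⟩
  rw [← h3] at h2
  have hee : e i = e (i - 1) := nbr_unique h1 h2
  have h4 := h.einj hee
  have h5 : (1 : ZMod n) = 0 := by
    have : i - (i - 1) = 0 := by rw [← h4]; ring
    rw [← this]; ring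
  apply hne
  rw [h5, add_zero]

/-- two cycle vertices joined by an edge of the graph are consecutive -/
lemma Cyc.consec (h : Cyc N m n v e) (a b : ZMod n) (f : Ex N m)
    (hf : (Gr N m).Joins f (v a) (v b)) : b = a + 1 ∨ a = b + 1 := by
  have hs : (Gr N m).src f ∈ Set.range v ∧ (Gr N m).tgt f ∈ Set.range v := by
    rcases hf with ⟨h1, h2⟩ | ⟨h1, h2⟩ <;> rw [h1, h2] <;> simp
  obtain ⟨k, rfl⟩ := h.ind f hs.1 hs.2
  have hk := h.joins k
  rcases hf with ⟨h1, h2⟩ | ⟨h1, h2⟩ <;> rcases hk with ⟨h3, h4⟩ | ⟨h3, h4⟩ <;>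
    rw [h1] at h3 <;> rw [h2] at h4 <;> have h5 := h.vinj h3 <;> have h6 := h.vinj h4
  · left; rw [h6, h5]
  · right; rw [h6, h5]
  · right; rw [h6, h5]
  · left; rw [h6, h5]

/-- the neighbours along the cycle of a vertex of maximal level -/
lemma Cyc.top_nbr (_h : Cyc N m n v e) (l : Fin m) (hmax : ∀ i, lev (v i) ≤ l.val + 1)
    (i : ZMod n) (j : Fin 3) (_hv : v i = .lay l j) (f : Ex N m) (i' : ZMod n)
    (hf : (Gr N m).Joins f (.lay l j) (v i')) :
    (∃ j', j' ≠ j ∧ v i' = .lay l j') ∨ v i' = node l.castSucc j := by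
  rcases nbr hf with ⟨j', k, hj, -, -, hw, -⟩ | ⟨hw, -⟩ | ⟨l', hl, hw, -⟩
  · exact Or.inl ⟨j', hj, hw⟩
  · exact Or.inr hw
  · have := hmax i'
    rw [hw] at this
    simp [lev] at this
    omega

lemma layer_edge (l : Fin m) (j j' : Fin 3) (h : j ≠ j') :
    ∃ f, (Gr N m).Joins f (.lay l j) (.lay l j') := by
  obtain ⟨k, hk1, hk2⟩ := fin3_exists j j'
  refine ⟨.tri l k, ?_⟩
  rcases fin3_third j j' k hk1 hk2 h with ⟨h3, h4⟩ | ⟨h3, h4⟩
  · rw [h3, h4]; exact joins_tri l k
  · rw [h3, h4]; exact Joins.symm (joins_tri l k)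

lemma node_pred (l : Fin m) (hl : 1 ≤ l.val) :
    ∃ l' : Fin m, l.castSucc = l'.succ := by
  refine ⟨⟨l.val - 1, by omega⟩, ?_⟩
  apply Fin.ext
  simp
  omega

/-- main case distinction, when the successor of a top vertex is a top vertex -/
lemma Cyc.top (h : Cyc N m n v e) (l : Fin m) (hl : 1 ≤ l.val)
    (hmax : ∀ i, lev (v i) ≤ l.val + 1) (i : ZMod n) (j j' : Fin 3) (hv : v i = .lay l j)
    (hj : j' ≠ j) (hv' : v (i + 1) = .lay l j') :
    Set.range v = layW l ∨ ∃ k, Set.range v = quadW l k := by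
  obtain ⟨hne1, hne2⟩ := h.ne i l j hv
  have h10 : (1 : ZMod n) ≠ 0 := by
    intro h0; apply hne2; rw [h0, add_zero]
  have h20 : (2 : ZMod n) ≠ 0 := by
    intro h0; apply hne1
    congr 1
    have : i + 1 - (i - 1) = 0 := by
      have h3 : i + 1 - (i - 1) = 2 := by ring
      rw [h3, h0]
    exact sub_eq_zero.1 this
  have hprev := h.prev i
  rw [hv] at hprev
  -- the other neighbour of `v i`
  rcases h.top_nbr l hmax i j hv _ _ hprev with ⟨j2, hj2, hq⟩ | hq
  · -- all three vertices of the layer: a triangle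
    left
    have hjj : j' ≠ j2 := by
      rintro rfl; exact hne1 (hv'.trans hq.symm)
    obtain ⟨f, hf⟩ := layer_edge (N := N) l j' j2 hjj
    rw [← hv', ← hq] at hf
    have h3 : (3 : ZMod n) = 0 := by
      rcases h.consec _ _ f hf with h4 | h4
      · have : i - 1 - (i + 1 + 1) = -3 := by ring
        rw [← h4, sub_self] at this
        have h5 := this.symm
        rwa [neg_eq_zero] at h5
      · exfalso; apply h10
        have : i + 1 - (i - 1 + 1) = 1 := by ring
        rw [← h4, sub_self] at this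
        exact this.symm
    have hn : n = 3 := by
      have h4 : ((3 : ℕ) : ZMod n) = 0 := by exact_mod_cast h3
      rw [ZMod.natCast_eq_zero_iff] at h4
      rcases (Nat.dvd_prime Nat.prime_three).1 h4 with h5 | h5
      · subst h5; exact absurd (Subsingleton.elim _ _) h10
      · exact h5
    subst hn
    have hall : ∀ x : ZMod 3, x = i ∨ x = i + 1 ∨ x = i - 1 := by
      clear * - ; revert i; decide
    ext w
    constructor
    · rintro ⟨x, rfl⟩
      rcases hall x with rfl | rfl | rfl
      · exact ⟨j, hv⟩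
      · exact ⟨j', hv'⟩
      · exact ⟨j2, hq⟩
    · rintro ⟨k, rfl⟩
      have : k = j ∨ k = j' ∨ k = j2 := by
        clear * - hj hj2 hjj; revert k j j' j2; decide
      rcases this with rfl | rfl | rfl
      · exact ⟨i, hv⟩
      · exact ⟨i + 1, hv'⟩
      · exact ⟨i - 1, hq⟩
  · -- a quadrangle
    right
    have hnext := h.joins (i + 1)
    rw [hv'] at hnext
    have hne3 := (h.ne (i + 1) l j' hv').1
    rw [add_sub_cancel_right] at hne3
    obtain ⟨l', hl'⟩ := node_pred l hl
    rcases h.top_nbr l hmax (i + 1) j' hv' _ _ hnext with ⟨j2, hj2, hr⟩ | hr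
    · -- impossible
      exfalso
      have hjj : j ≠ j2 := by
        rintro rfl; exact hne3 (hr.trans hv.symm)
      obtain ⟨f, hf⟩ := layer_edge (N := N) l j j2 hjj
      rw [← hv, ← hr] at hf
      rcases h.consec _ _ f hf with h4 | h4
      · apply h10
        have : i + 1 + 1 - (i + 1) = 1 := by ring
        rw [h4, sub_self] at this
        exact this.symm
      · have h5 : i - 1 = i + 1 + 1 := by
          nth_rewrite 1 [h4]; ring
        rw [h5, hr] at hq
        have := congrArg lev hq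
        rw [lev_node] at this
        simp [lev] at this
    · obtain ⟨k, hk1, hk2⟩ := fin3_exists j j'
      refine ⟨k, ?_⟩
      obtain ⟨f, hf⟩ := layer_edge (N := N) l' j j' hj.symm
      have hq' : v (i - 1) = .lay l' j := by rw [hq, hl', node_succ]
      have hr' : v (i + 1 + 1) = .lay l' j' := by rw [hr, hl', node_succ]
      rw [← hq', ← hr'] at hf
      have h4 : (4 : ZMod n) = 0 := by
        rcases h.consec _ _ f hf with h5 | h5
        · exfalso; apply h20
          have : i + 1 + 1 - (i - 1 + 1) = 2 := by ring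
          rw [h5, sub_self] at this
          exact this.symm
        · have : i - 1 - (i + 1 + 1 + 1) = -4 := by ring
          rw [h5, sub_self] at this
          have h6 := this.symm
          rwa [neg_eq_zero] at h6
      have hn : n = 4 := by
        have h5 : ((4 : ℕ) : ZMod n) = 0 := by exact_mod_cast h4
        rw [ZMod.natCast_eq_zero_iff] at h5
        have h6 : n ≤ 4 := Nat.le_of_dvd (by norm_num) h5
        interval_cases n
        · omega
        · exact absurd (Subsingleton.elim _ _) h10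
        · exact absurd (by decide) h20
        · omega
        · rfl
      subst hn
      have hall : ∀ x : ZMod 4, x = i ∨ x = i + 1 ∨ x = i - 1 ∨ x = i + 1 + 1 := by
        clear * - ; revert i; decide
      ext w
      constructor
      · rintro ⟨x, rfl⟩
        rcases hall x with rfl | rfl | rfl | rfl
        · exact ⟨j, hk1.symm, Or.inl hv⟩
        · exact ⟨j', hk2.symm, Or.inl hv'⟩
        · exact ⟨j, hk1.symm, Or.inr hq⟩
        · exact ⟨j', hk2.symm, Or.inr hr⟩
      · rintro ⟨j3, hj3, hw⟩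
        have : j3 = j ∨ j3 = j' := by
          clear * - hk1 hk2 hj hj3; revert k j j' j3; decide
        rcases this with rfl | rfl <;> rcases hw with rfl | rfl
        · exact ⟨i, hv⟩
        · exact ⟨i - 1, hq⟩
        · exact ⟨i + 1, hv'⟩
        · exact ⟨i + 1 + 1, hr⟩

/-- vertices of level at most one -/
def low : Set (Vx N m) := {v | lev v ≤ 1}

theorem Cyc.classify (hn : 1 ≤ n) (h : Cyc N m n v e) :
    Set.range v ⊆ low ∨ (∃ l, Set.range v = layW l) ∨ ∃ l k, Set.range v = quadW l k := by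
  by_cases hlow : Set.range v ⊆ low
  · exact Or.inl hlow
  right
  have : NeZero n := ⟨by omega⟩
  obtain ⟨i, hi⟩ := Finite.exists_max (fun i : ZMod n => lev (v i))
  rw [Set.not_subset] at hlow
  obtain ⟨_, ⟨i0, rfl⟩, hi0⟩ := hlow
  have hi1 : 2 ≤ lev (v i) := by
    have := hi i0
    simp only [low, Set.mem_ofPred_eq, not_le] at hi0
    omega
  rcases hvi : v i with ⟨x, y⟩ | ⟨l, j⟩
  · rw [hvi] at hi1; simp [lev] at hi1
  have hl : 1 ≤ l.val := by
    rw [hvi] at hi1; simp [lev] at hi1; omega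
  have hmax : ∀ i', lev (v i') ≤ l.val + 1 := by
    intro i'
    have := hi i'
    rw [hvi] at this
    simpa [lev] using this
  have hfin : Set.range v = layW l ∨ ∃ k, Set.range v = quadW l k := by
    have hnext := h.joins i
    rw [hvi] at hnext
    have hprev := h.prev i
    rw [hvi] at hprev
    rcases h.top_nbr l hmax i j hvi _ _ hnext with ⟨j', hj, hv'⟩ | hp
    · exact h.top l hl hmax i j j' hvi hj hv'
    · rcases h.top_nbr l hmax i j hvi _ _ hprev with ⟨j', hj, hv'⟩ | hq
      · have := h.rev.top l hl (fun i' => hmax (-i')) (-i) j j' (by simp [hvi]) hj (by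
          have h2 : -(-i + 1) = i - 1 := by ring
          rw [h2, hv'])
        rwa [Cyc.range_rev] at this
      · exact absurd (hp.trans hq.symm) (h.ne i l j hvi).1
  rcases hfin with h1 | ⟨k, h1⟩
  · exact Or.inl ⟨l, h1⟩
  · exact Or.inr ⟨l, k, h1⟩

/-! ### counting -/

/-- vertices as a sum type -/
def vxEquiv (N m : ℕ) : Vx N m ≃ (ZMod N × ZMod N) ⊕ (Fin m × Fin 3) where
  toFun
    | .grid x y => Sum.inl (x, y)
    | .lay i j => Sum.inr (i, j)
  invFun
    | Sum.inl p => .grid p.1 p.2
    | Sum.inr p => .lay p.1 p.2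
  left_inv := by rintro (_ | _) <;> rfl
  right_inv := by rintro (⟨_, _⟩ | ⟨_, _⟩) <;> rfl

/-- edges as a sum type -/
def exEquiv (N m : ℕ) : Ex N m ≃
    ((ZMod N × ZMod N) ⊕ (ZMod N × ZMod N)) ⊕ ((Fin m × Fin 3) ⊕ (Fin m × Fin 3)) where
  toFun
    | .hor x y => Sum.inl (Sum.inl (x, y))
    | .ver x y => Sum.inl (Sum.inr (x, y))
    | .tri i j => Sum.inr (Sum.inl (i, j))
    | .rad i j => Sum.inr (Sum.inr (i, j))
  invFun
    | Sum.inl (Sum.inl p) => .hor p.1 p.2
    | Sum.inl (Sum.inr p) => .ver p.1 p.2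
    | Sum.inr (Sum.inl p) => .tri p.1 p.2
    | Sum.inr (Sum.inr p) => .rad p.1 p.2
  left_inv := by rintro (_ | _ | _ | _) <;> rfl
  right_inv := by rintro ((⟨_, _⟩ | ⟨_, _⟩) | (⟨_, _⟩ | ⟨_, _⟩)) <;> rfl

variable [NeZero N]

noncomputable instance : Fintype (Vx N m) := Fintype.ofEquiv _ (vxEquiv N m).symm

noncomputable instance : Fintype (Ex N m) := Fintype.ofEquiv _ (exEquiv N m).symm

lemma card_vx : Fintype.card (Vx N m) = N * N + m * 3 := by
  rw [Fintype.card_congr (vxEquiv N m)]
  simp [ZMod.card]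

lemma low_ncard : (low : Set (Vx N m)).ncard ≤ N * N + 3 := by
  have h : (low : Set (Vx N m)).ncard ≤ (Set.univ : Set ((ZMod N × ZMod N) ⊕ Fin 3)).ncard := by
    apply Set.ncard_le_ncard_of_injOn (fun v : Vx N m => match v with
      | .grid x y => Sum.inl (x, y)
      | .lay _ j => Sum.inr j)
    · intro _ _; trivial
    · rintro (⟨x, y⟩ | ⟨i, j⟩) h1 (⟨x', y'⟩ | ⟨i', j'⟩) h2 h
      · simp only [Sum.inl.injEq, Prod.mk.injEq] at h
        rw [h.1, h.2]
      · cases h
      · cases h
      · simp only [Sum.inr.injEq] at h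
        have h3 : i.val + 1 ≤ 1 := h1
        have h4 : i'.val + 1 ≤ 1 := h2
        have : i = i' := Fin.ext (by omega)
        rw [this, h]
  refine h.trans ?_
  rw [Set.ncard_univ, Nat.card_eq_fintype_card]
  simp [ZMod.card]

/-- the number of peripheral cycles is at most `2 ^ (N² + 3) + 4 m` -/
theorem peripheral_ncard :
    {C | (Gr N m).IsPeripheral C}.ncard ≤ 2 ^ (N * N + 3) + (m + m * 3) := by
  classical
  let φ : Set (Vx N m) → Set (Ex N m) := fun W => {f | (Gr N m).src f ∈ W ∧ (Gr N m).tgt f ∈ W}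
  have hsub : {C | (Gr N m).IsPeripheral C} ⊆
      φ '' (𝒫 low ∪ (Set.range layW ∪ Set.range fun p : Fin m × Fin 3 => quadW p.1 p.2)) := by
    rintro C ⟨W, ⟨n, hn, v, e, hv, he, hj, hC, hW⟩, hind, -⟩
    have hcyc : Cyc N m n v e := ⟨hv, he, hj, by
      intro f hs ht
      rw [hC]
      rw [hW] at hs ht
      exact hind f hs ht⟩
    refine ⟨W, ?_, ?_⟩
    · rcases hcyc.classify hn with h | ⟨l, h⟩ | ⟨l, k, h⟩ <;> rw [hW] at h
      · exact Or.inl h
      · exact Or.inr (Or.inl ⟨l, h.symm⟩)
      · exact Or.inr (Or.inr ⟨(l, k), h.symm⟩)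
    · ext f
      constructor
      · rintro ⟨h1, h2⟩
        exact hind f h1 h2
      · intro h
        rw [← hC] at h
        obtain ⟨i, rfl⟩ := h
        rw [← hW]
        rcases hj i with ⟨h1, h2⟩ | ⟨h1, h2⟩
        · exact ⟨by rw [h1]; simp, by rw [h2]; simp⟩
        · exact ⟨by rw [h1]; simp, by rw [h2]; simp⟩
  refine (Set.ncard_le_ncard hsub (Set.toFinite _)).trans ?_
  refine (Set.ncard_image_le (Set.toFinite _)).trans ?_
  refine (Set.ncard_union_le _ _).trans ?_
  refine add_le_add ?_ ((Set.ncard_union_le _ _).trans (add_le_add ?_ ?_))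
  · rw [Set.ncard_powerset _ (Set.toFinite _)]
    exact Nat.pow_le_pow_right (by norm_num) low_ncard
  · have := Set.ncard_image_le (f := (layW : Fin m → Set (Vx N m))) (Set.finite_univ)
    rw [Set.image_univ, Set.ncard_univ, Nat.card_eq_fintype_card, Fintype.card_fin] at this
    exact this
  · have := Set.ncard_image_le
      (f := (fun p : Fin m × Fin 3 => (quadW p.1 p.2 : Set (Vx N m)))) (Set.finite_univ)
    rw [Set.image_univ, Set.ncard_univ, Nat.card_eq_fintype_card] at this
    simpa using this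

end Pool.Agent.R177.Per
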