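import Mathlib

/-!
# Noncontractible closed curves on the torus cross the grid lines
-/

namespace Pool.Agent.R177.Per

open unitInterval

section

variable {N : ℕ}

lemma coe_eq_iff (a b : ℝ) :
    ((a : ℝ) : AddCircle (N : ℝ)) = b ↔ ∃ k : ℤ, a - b = k * N := by
  rw [← sub_eq_zero, ← AddCircle.coe_sub, AddCircle.coe_eq_zero_iff]
  constructor
  · rintro ⟨k, hk⟩
    exact ⟨k, by rw [← hk]; simp⟩
  · rintro ⟨k, hk⟩
    exact ⟨k, by rw [hk]; simp⟩

/-- a continuous real function whose end values differ by a nonzero multiple of `N` takes a value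
congruent to `z` modulo `N` -/
lemma ivt (hN : 1 ≤ N) (a : C(I, ℝ)) (k : ℤ) (hk : k ≠ 0) (ha : a 1 - a 0 = k * N) (z : ℝ) :
    ∃ t : I, ((a t : ℝ) : AddCircle (N : ℝ)) = z := by
  have hNr : (0 : ℝ) < N := by exact_mod_cast hN
  -- the minimum and the maximum
  set lo := min (a 0) (a 1) with hlo
  set hi := max (a 0) (a 1) with hhi
  have hlen : lo + N ≤ hi := by
    have h1 : (1 : ℝ) ≤ |(k : ℝ)| := by
      have : (1 : ℤ) ≤ |k| := Int.one_le_abs hk
      exact_mod_cast this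
    have h2 : hi - lo = |a 1 - a 0| := by
      rw [hlo, hhi, max_sub_min_eq_abs]
    rw [ha, abs_mul, abs_of_pos hNr] at h2
    nlinarith
  let q : ℤ := ⌈(lo - z) / N⌉
  have hq1 : lo ≤ z + q * N := by
    have := Int.le_ceil ((lo - z) / N)
    rw [div_le_iff₀ hNr] at this
    linarith
  have hq2 : z + q * N ≤ hi := by
    have := Int.ceil_lt_add_one ((lo - z) / N)
    have h3 : (q : ℝ) * N < ((lo - z) / N + 1) * N := mul_lt_mul_of_pos_right this hNr
    rw [add_mul, div_mul_cancel₀ _ hNr.ne'] at h3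
    linarith
  obtain ⟨t, ht⟩ : ∃ t : I, a t = z + q * N := by
    rcases le_total (a 0) (a 1) with h | h
    · rw [min_eq_left h] at hlo
      rw [max_eq_right h] at hhi
      exact mem_range_of_exists_le_of_exists_ge a.continuous ⟨0, by rw [← hlo]; exact hq1⟩
        ⟨1, by rw [← hhi]; exact hq2⟩
    · rw [min_eq_right h] at hlo
      rw [max_eq_left h] at hhi
      exact mem_range_of_exists_le_of_exists_ge a.continuous ⟨1, by rw [← hlo]; exact hq1⟩
        ⟨0, by rw [← hhi]; exact hq2⟩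
  refine ⟨t, ?_⟩
  rw [coe_eq_iff]
  exact ⟨q, by rw [ht]; ring⟩

/-- the projection of the plane onto the torus -/
def proj (N : ℕ) : C(ℝ × ℝ, AddCircle (N : ℝ) × AddCircle (N : ℝ)) where
  toFun p := ((p.1 : AddCircle (N : ℝ)), (p.2 : AddCircle (N : ℝ)))
  continuous_toFun := by
    refine Continuous.prodMk ?_ ?_
    · exact (AddCircle.continuous_mk' _).comp continuous_fst
    · exact (AddCircle.continuous_mk' _).comp continuous_snd

/-- the standard path around the circle -/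
def wrap : C(I, AddCircle (1 : ℝ)) where
  toFun t := ((t : ℝ) : AddCircle (1 : ℝ))
  continuous_toFun := (AddCircle.continuous_mk' _).comp continuous_subtype_val

lemma wrap_zero_one : wrap 0 = wrap 1 := by
  show (((0 : I) : ℝ) : AddCircle (1 : ℝ)) = (((1 : I) : ℝ) : AddCircle (1 : ℝ))
  have : ((1 : ℝ) : AddCircle (1 : ℝ)) = 0 := AddCircle.coe_period 1
  simp [this]

/-- a closed curve with a closed lift is null-homotopic -/
lemma null_of_closed (γ : C(AddCircle (1 : ℝ), AddCircle (N : ℝ) × AddCircle (N : ℝ)))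
    (Γ : C(I, ℝ × ℝ)) (h : ∀ t, proj N (Γ t) = γ (wrap t)) (h01 : Γ 0 = Γ 1) :
    γ.Nullhomotopic := by
  have hfact : Fact ((0 : ℝ) < 1) := ⟨one_pos⟩
  let f : ℝ → ℝ × ℝ := Set.IccExtend (zero_le_one' ℝ) Γ
  have hf : Continuous f := Γ.continuous.Icc_extend'
  have hend : f 0 = f (0 + 1) := by
    have h1 : f 0 = Γ 0 := by
      have := Set.IccExtend_of_mem (zero_le_one' ℝ) (⇑Γ) (x := 0) (by simp)
      exact this
    have h2 : f (0 + 1) = Γ 1 := by
      have := Set.IccExtend_of_mem (zero_le_one' ℝ) (⇑Γ) (x := 1) (by simp)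
      rw [zero_add]
      exact this
    rw [h1, h2, h01]
  let Γ' : C(AddCircle (1 : ℝ), ℝ × ℝ) :=
    ⟨AddCircle.liftIco 1 0 f, AddCircle.liftIco_continuous hend hf.continuousOn⟩
  have hγ : γ = (proj N).comp ((ContinuousMap.id (ℝ × ℝ)).comp Γ') := by
    ext1 u
    obtain ⟨x, hx, rfl⟩ : ∃ x ∈ Set.Ico (0 : ℝ) 1, (x : AddCircle (1 : ℝ)) = u := by
      have := AddCircle.coe_image_Ico_eq (1 : ℝ) 0
      have h2 : u ∈ ((↑) : ℝ → AddCircle (1 : ℝ)) '' Set.Ico 0 (0 + 1) := by
        rw [this]; trivial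
      obtain ⟨x, hx, hxu⟩ := h2
      exact ⟨x, by simpa using hx, hxu⟩
    have h1 : Γ' (x : AddCircle (1 : ℝ)) = f x := by
      show AddCircle.liftIco 1 0 f (x : AddCircle (1 : ℝ)) = f x
      exact AddCircle.liftIco_coe_apply (by simpa using hx)
    have hxI : x ∈ Set.Icc (0 : ℝ) 1 := ⟨hx.1, hx.2.le⟩
    have h2 : f x = Γ ⟨x, hxI⟩ := Set.IccExtend_of_mem (zero_le_one' ℝ) (⇑Γ) hxI
    show γ _ = proj N (Γ' _)
    rw [h1, h2, h]
    rfl
  rw [hγ]
  exact ((id_nullhomotopic (ℝ × ℝ)).comp_left Γ').comp_right (proj N)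

theorem crossing (hN : 1 ≤ N)
    (γ : C(AddCircle (1 : ℝ), AddCircle (N : ℝ) × AddCircle (N : ℝ)))
    (hγ : ¬ γ.Nullhomotopic) :
    (∀ z : ℝ, ∃ u, (γ u).1 = (z : AddCircle (N : ℝ))) ∨
      ∀ z : ℝ, ∃ u, (γ u).2 = (z : AddCircle (N : ℝ)) := by
  have cov := AddCircle.isCoveringMap_coe (N : ℝ)
  let g1 : C(I, AddCircle (N : ℝ)) := (ContinuousMap.fst.comp γ).comp wrap
  let g2 : C(I, AddCircle (N : ℝ)) := (ContinuousMap.snd.comp γ).comp wrap
  obtain ⟨a0, ha0⟩ := QuotientAddGroup.mk_surjective (g1 0)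
  obtain ⟨b0, hb0⟩ := QuotientAddGroup.mk_surjective (g2 0)
  obtain ⟨a, ha, -⟩ := cov.exists_path_lifts g1 a0 ha0.symm
  obtain ⟨b, hb, -⟩ := cov.exists_path_lifts g2 b0 hb0.symm
  have ha' : ∀ t, ((a t : ℝ) : AddCircle (N : ℝ)) = (γ (wrap t)).1 := fun t => congrFun ha t
  have hb' : ∀ t, ((b t : ℝ) : AddCircle (N : ℝ)) = (γ (wrap t)).2 := fun t => congrFun hb t
  obtain ⟨k, hk⟩ : ∃ k : ℤ, a 1 - a 0 = k * N := by
    rw [← coe_eq_iff, ha', ha', wrap_zero_one]
  obtain ⟨l, hl⟩ : ∃ l : ℤ, b 1 - b 0 = l * N := by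
    rw [← coe_eq_iff, hb', hb', wrap_zero_one]
  by_cases hk0 : k = 0
  · by_cases hl0 : l = 0
    · exfalso
      apply hγ
      refine null_of_closed γ ⟨fun t => (a t, b t), a.continuous.prodMk b.continuous⟩ ?_ ?_
      · intro t
        exact Prod.ext (ha' t) (hb' t)
      · rw [hk0] at hk
        rw [hl0] at hl
        simp only [Int.cast_zero, zero_mul] at hk hl
        exact Prod.ext (by simp only [ContinuousMap.coe_mk]; linarith)
          (by simp only [ContinuousMap.coe_mk]; linarith)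
    · right
      intro z
      obtain ⟨t, ht⟩ := ivt hN b l hl0 hl z
      exact ⟨wrap t, by rw [← hb', ht]⟩
  · left
    intro z
    obtain ⟨t, ht⟩ := ivt hN a k hk0 hk z
    exact ⟨wrap t, by rw [← ha', ht]⟩

lemma natval_injective (_hN : 1 ≤ N) :
    Function.Injective (fun z : Fin N => (((z.val : ℕ) : ℝ) : AddCircle (N : ℝ))) := by
  intro z w h
  simp only [coe_eq_iff] at h
  obtain ⟨k, hk⟩ := h
  have h1 : ((z.val : ℤ)) - (w.val : ℤ) = k * N := by exact_mod_cast hk
  have hz := z.isLt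
  have hw := w.isLt
  have hk0 : k = 0 := by
    by_contra hne
    rcases lt_or_gt_of_ne hne with h2 | h2
    · have : k ≤ -1 := by omega
      nlinarith
    · have : 1 ≤ k := by omega
      nlinarith
  rw [hk0, zero_mul] at h1
  exact Fin.ext (by omega)

/-- a closed set containing all grid lines is met at least `N` times by every noncontractible
closed curve -/
theorem grid_crossings (hN : 1 ≤ N) (S : Set (AddCircle (N : ℝ) × AddCircle (N : ℝ)))
    (h1 : ∀ (z : Fin N) b, ((((z.val : ℕ) : ℝ) : AddCircle (N : ℝ)), b) ∈ S)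
    (h2 : ∀ (z : Fin N) a, (a, (((z.val : ℕ) : ℝ) : AddCircle (N : ℝ))) ∈ S)
    (γ : C(AddCircle (1 : ℝ), AddCircle (N : ℝ) × AddCircle (N : ℝ)))
    (hγ : ¬ γ.Nullhomotopic) :
    (N : ℕ∞) ≤ (Set.range γ ∩ S).encard := by
  have key : ∀ f : Fin N → AddCircle (N : ℝ) × AddCircle (N : ℝ), Function.Injective f →
      Set.range f ⊆ Set.range γ ∩ S → (N : ℕ∞) ≤ (Set.range γ ∩ S).encard := by
    intro f hf hsub
    have h3 := Set.encard_le_encard hsub
    have h4 : (Set.range f).encard = N := by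
      rw [← Set.image_univ, hf.encard_image, Set.encard_univ]
      simp
    rw [h4] at h3
    exact h3
  rcases crossing hN γ hγ with h | h
  · choose u hu using fun z : Fin N => h (z.val : ℝ)
    refine key (fun z => γ (u z)) ?_ ?_
    · intro z w hzw
      apply natval_injective hN
      show (((z.val : ℕ) : ℝ) : AddCircle (N : ℝ)) = (((w.val : ℕ) : ℝ) : AddCircle (N : ℝ))
      rw [← hu z, ← hu w]
      exact congrArg Prod.fst hzw
    · rintro _ ⟨z, rfl⟩
      refine ⟨⟨u z, rfl⟩, ?_⟩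
      have := h1 z (γ (u z)).2
      rw [← hu z] at this
      exact this
  · choose u hu using fun z : Fin N => h (z.val : ℝ)
    refine key (fun z => γ (u z)) ?_ ?_
    · intro z w hzw
      apply natval_injective hN
      show (((z.val : ℕ) : ℝ) : AddCircle (N : ℝ)) = (((w.val : ℕ) : ℝ) : AddCircle (N : ℝ))
      rw [← hu z, ← hu w]
      exact congrArg Prod.snd hzw
    · rintro _ ⟨z, rfl⟩
      refine ⟨⟨u z, rfl⟩, ?_⟩
      have := h2 z (γ (u z)).1
      rw [← hu z] at this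
      exact this

end

end Pool.Agent.R177.Per
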