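import Mathlib
import Pool.Agent.R177.Per.Count
import Pool.Agent.R177.Per.Rep

/-!
# Drawing the toroidal grid with nested triangles on the torus
-/

namespace Pool.Agent.R177.Per

open MGraph unitInterval

set_option linter.unusedSectionVars false

/-- radii of the layers (the corners have radius `1`) -/
noncomputable def rho (n : ℕ) : ℝ := 1 / ((n : ℝ) + 1)

lemma rho_pos (n : ℕ) : 0 < rho n := by unfold rho; positivity

lemma rho_zero : rho 0 = 1 := by simp [rho]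

lemma rho_lt {a b : ℕ} (h : a < b) : rho b < rho a := by
  unfold rho
  have : (a : ℝ) < b := by exact_mod_cast h
  exact one_div_lt_one_div_of_lt (by positivity) (by linarith)

lemma rho_le {a b : ℕ} (h : a ≤ b) : rho b ≤ rho a := by
  rcases Nat.lt_or_ge a b with h1 | h1
  · exact (rho_lt h1).le
  · have : a = b := by omega
    rw [this]

lemma rho_succ_lt_one (n : ℕ) : rho (n + 1) < 1 := by
  have := rho_lt (Nat.succ_pos n)
  rwa [rho_zero] at this

lemma rho_inj {a b : ℕ} (h : rho a = rho b) : a = b := by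
  rcases lt_trichotomy a b with h1 | h1 | h1
  · exact absurd h (rho_lt h1).ne'
  · exact h1
  · exact absurd h (rho_lt h1).ne

/-- Kronecker delta -/
def dl (a b : Fin 3) : ℝ := if a = b then 1 else 0

/-- barycentric coordinates of the points of a triangle edge -/
noncomputable def lamT (r : ℝ) (k : Fin 3) (t : ℝ) (l : Fin 3) : ℝ :=
  (1 - r) / 3 + r * ((1 - t) * dl l (k + 1) + t * dl l (k + 2))

/-- barycentric coordinates of a point on the ray `j` -/
noncomputable def lamR (r : ℝ) (j : Fin 3) (l : Fin 3) : ℝ := (1 - r) / 3 + r * dl l j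

/-- from barycentric coordinates to the plane -/
def pt (lam : Fin 3 → ℝ) : ℝ × ℝ := (lam 1 + lam 2, lam 2)

/-- radius along a radial edge -/
noncomputable def radius (i : ℕ) (t : ℝ) : ℝ := (1 - t) * rho i + t * rho (i + 1)

lemma dl_nonneg (a b : Fin 3) : 0 ≤ dl a b := by unfold dl; split_ifs <;> norm_num

lemma dl_self (a : Fin 3) : dl a a = 1 := by simp [dl]

lemma dl_sum (b : Fin 3) : dl 0 b + dl 1 b + dl 2 b = 1 := by
  fin_cases b <;> simp [dl]

lemma lamT_sum (r : ℝ) (k : Fin 3) (t : ℝ) : lamT r k t 0 + lamT r k t 1 + lamT r k t 2 = 1 := by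
  unfold lamT
  linear_combination r * (1 - t) * dl_sum (k + 1) + r * t * dl_sum (k + 2)

lemma lamR_sum (r : ℝ) (j : Fin 3) : lamR r j 0 + lamR r j 1 + lamR r j 2 = 1 := by
  unfold lamR
  linear_combination r * dl_sum j

lemma lamT_pos {r : ℝ} {k : Fin 3} {t : ℝ} (hr0 : 0 < r) (hr1 : r < 1) (ht0 : 0 ≤ t) (ht1 : t ≤ 1)
    (l : Fin 3) : 0 < lamT r k t l := by
  unfold lamT
  have h1 := mul_nonneg (sub_nonneg.2 ht1) (dl_nonneg l (k + 1))
  have h2 := mul_nonneg ht0 (dl_nonneg l (k + 2))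
  have h3 := mul_nonneg hr0.le (add_nonneg h1 h2)
  linarith

lemma lamR_nonneg {r : ℝ} {j : Fin 3} (hr0 : 0 < r) (hr1 : r ≤ 1) (l : Fin 3) :
    0 ≤ lamR r j l := by
  unfold lamR
  have h3 := mul_nonneg hr0.le (dl_nonneg l j)
  linarith

lemma lamR_pos {r : ℝ} {j : Fin 3} (hr0 : 0 < r) (hr1 : r < 1) (l : Fin 3) :
    0 < lamR r j l := by
  unfold lamR
  have h3 := mul_nonneg hr0.le (dl_nonneg l j)
  linarith

lemma lamT_zero (r : ℝ) (k : Fin 3) : lamT r k 0 = lamR r (k + 1) := by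
  ext l; simp [lamT, lamR]

lemma lamT_one (r : ℝ) (k : Fin 3) : lamT r k 1 = lamR r (k + 2) := by
  ext l; simp [lamT, lamR]

lemma TT {r r' s t : ℝ} {k k' : Fin 3} (hr : 0 < r) (hr' : 0 < r') (hs0 : 0 < s) (hs1 : s < 1)
    (ht0 : 0 ≤ t) (ht1 : t ≤ 1) (h : lamT r k s = lamT r' k' t) : r = r' ∧ k = k' ∧ s = t := by
  have h0 := congrFun h 0
  have h1 := congrFun h 1
  have h2 := congrFun h 2
  have a1 := mul_pos hr hs0
  have a2 := mul_pos hr (sub_pos.2 hs1)
  have a3 := mul_nonneg hr'.le ht0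
  have a4 := mul_nonneg hr'.le (sub_nonneg.2 ht1)
  unfold lamT at h0 h1 h2
  have key : r = r' ∧ k = k' ∧ r * s = r' * t := by
    fin_cases k <;> fin_cases k' <;> simp [dl] at h0 h1 h2 ⊢ <;>
      first
      | exact ⟨by linarith, by linarith⟩
      | (exfalso; linarith)
  obtain ⟨k1, k2, k3⟩ := key
  refine ⟨k1, k2, ?_⟩
  rw [← k1] at k3
  exact mul_left_cancel₀ hr.ne' k3

lemma TR {r r' s : ℝ} {k j : Fin 3} (hr : 0 < r) (hr' : 0 < r') (hs0 : 0 < s) (hs1 : s < 1)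
    (h : lamT r k s = lamR r' j) : False := by
  have h0 := congrFun h 0
  have h1 := congrFun h 1
  have h2 := congrFun h 2
  have a1 := mul_pos hr hs0
  have a2 := mul_pos hr (sub_pos.2 hs1)
  unfold lamT lamR at h0 h1 h2
  fin_cases k <;> fin_cases j <;> simp [dl] at h0 h1 h2 <;> linarith

lemma RT {r r' t : ℝ} {k j : Fin 3} (hr : 0 < r) (hr' : 0 < r') (ht0 : 0 ≤ t) (ht1 : t ≤ 1)
    (h : lamR r j = lamT r' k t) : r = r' := by
  have h0 := congrFun h 0
  have h1 := congrFun h 1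
  have h2 := congrFun h 2
  have a3 := mul_nonneg hr'.le ht0
  have a4 := mul_nonneg hr'.le (sub_nonneg.2 ht1)
  unfold lamT lamR at h0 h1 h2
  fin_cases k <;> fin_cases j <;> simp [dl] at h0 h1 h2 <;> linarith

lemma RR {r r' : ℝ} {j j' : Fin 3} (hr : 0 < r) (hr' : 0 < r')
    (h : lamR r j = lamR r' j') : r = r' ∧ j = j' := by
  have h0 := congrFun h 0
  have h1 := congrFun h 1
  have h2 := congrFun h 2
  unfold lamR at h0 h1 h2
  fin_cases j <;> fin_cases j' <;> simp [dl] at h0 h1 h2 ⊢ <;> linarith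

lemma radius_mem (i : ℕ) {t : ℝ} (h0 : 0 ≤ t) (h1 : t ≤ 1) :
    rho (i + 1) ≤ radius i t ∧ radius i t ≤ rho i := by
  have h := rho_lt (Nat.lt_succ_self i)
  have a := mul_nonneg h0 (sub_pos.2 h).le
  have b := mul_nonneg (sub_nonneg.2 h1) (sub_pos.2 h).le
  unfold radius
  constructor <;> nlinarith

lemma radius_mem_lt (i : ℕ) {t : ℝ} (h0 : 0 < t) (h1 : t < 1) :
    rho (i + 1) < radius i t ∧ radius i t < rho i := by
  have h := rho_lt (Nat.lt_succ_self i)
  have a := mul_pos h0 (sub_pos.2 h)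
  have b := mul_pos (sub_pos.2 h1) (sub_pos.2 h)
  unfold radius
  constructor <;> nlinarith

lemma radius_pos (i : ℕ) {t : ℝ} (h0 : 0 ≤ t) (h1 : t ≤ 1) : 0 < radius i t :=
  (rho_pos _).trans_le (radius_mem i h0 h1).1

lemma radius_le_one (i : ℕ) {t : ℝ} (h0 : 0 ≤ t) (h1 : t ≤ 1) : radius i t ≤ 1 := by
  refine (radius_mem i h0 h1).2.trans ?_
  rw [← rho_zero]
  exact rho_le (Nat.zero_le _)

lemma radius_lt_one (i : ℕ) {t : ℝ} (h0 : 0 < t) (h1 : t < 1) : radius i t < 1 := by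
  refine (radius_mem_lt i h0 h1).2.trans_le ?_
  rw [← rho_zero]
  exact rho_le (Nat.zero_le _)

lemma radius_ne_rho (i n : ℕ) {t : ℝ} (h0 : 0 < t) (h1 : t < 1) : radius i t ≠ rho n := by
  obtain ⟨h2, h3⟩ := radius_mem_lt i h0 h1
  intro h
  rw [h] at h2 h3
  rcases Nat.lt_or_ge i n with h4 | h4
  · exact absurd (rho_le (show i + 1 ≤ n by omega)) (not_le.2 h2)
  · exact absurd (rho_le h4) (not_le.2 h3)

lemma radius_inj {i i' : ℕ} {s t : ℝ} (hs0 : 0 < s) (hs1 : s < 1) (ht0 : 0 ≤ t) (ht1 : t ≤ 1)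
    (h : radius i s = radius i' t) : i = i' ∧ s = t := by
  obtain ⟨h2, h3⟩ := radius_mem_lt i hs0 hs1
  obtain ⟨h4, h5⟩ := radius_mem i' ht0 ht1
  have hi : i = i' := by
    rcases lt_trichotomy i i' with h6 | h6 | h6
    · have := rho_le (show i + 1 ≤ i' by omega)
      linarith
    · exact h6
    · have := rho_le (show i' + 1 ≤ i by omega)
      linarith
  subst hi
  refine ⟨rfl, ?_⟩
  have h6 := rho_lt (Nat.lt_succ_self i)
  unfold radius at h
  have h7 : (s - t) * (rho (i + 1) - rho i) = 0 := by linear_combination h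
  rcases mul_eq_zero.1 h7 with h8 | h8
  · linarith
  · simp only [Nat.succ_eq_add_one] at h6
    linarith

variable {N m : ℕ}

/-- the arcs in the plane -/
noncomputable def arcR : Ex N m → ℝ → ℝ × ℝ
  | .hor x y, t => ((x.val : ℝ) + t, (y.val : ℝ))
  | .ver x y, t => ((x.val : ℝ), (y.val : ℝ) + t)
  | .tri i k, t => pt (lamT (rho (i + 1)) k t)
  | .rad i j, t => pt (lamR (radius i t) j)

/-- the positions in the plane -/
noncomputable def posR : Vx N m → ℝ × ℝ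
  | .grid x y => ((x.val : ℝ), (y.val : ℝ))
  | .lay i j => pt (lamR (rho (i + 1)) j)

lemma arcR_continuous (e : Ex N m) : Continuous (arcR e) := by
  rcases e with ⟨x, y⟩ | ⟨x, y⟩ | ⟨i, k⟩ | ⟨i, k⟩
  · show Continuous fun t : ℝ => (((x.val : ℝ) + t, (y.val : ℝ)) : ℝ × ℝ)
    fun_prop
  · show Continuous fun t : ℝ => (((x.val : ℝ), (y.val : ℝ) + t) : ℝ × ℝ)
    fun_prop
  · show Continuous fun t : ℝ => pt (lamT (rho (i + 1)) k t)
    unfold pt lamT
    fun_prop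
  · show Continuous fun t : ℝ => pt (lamR (radius i t) k)
    unfold pt lamR radius
    fun_prop

lemma int_of_coe {a : ℝ} {z : ℤ} (h : ((a : ℝ) : AddCircle (N : ℝ)) = ((z : ℝ))) :
    ∃ w : ℤ, a = w := by
  rw [coe_eq_iff] at h
  obtain ⟨k, hk⟩ := h
  exact ⟨z + k * N, by push_cast; linarith⟩

lemma not_int {a : ℝ} (h0 : 0 < a) (h1 : a < 1) : ¬ ∃ w : ℤ, a = w := by
  rintro ⟨w, rfl⟩
  have h2 : (0 : ℤ) < w := by exact_mod_cast h0
  have h3 : w < (1 : ℤ) := by exact_mod_cast h1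
  omega

lemma not_int_add {a : ℝ} (n : ℕ) (h0 : 0 < a) (h1 : a < 1) : ¬ ∃ w : ℤ, (n : ℝ) + a = w := by
  rintro ⟨w, hw⟩
  exact not_int h0 h1 ⟨w - n, by push_cast; linarith⟩

lemma eq_of_coe (hN : 2 ≤ N) {a b : ℝ} (ha0 : 0 ≤ a) (ha1 : a ≤ 1) (hb0 : 0 ≤ b) (hb1 : b ≤ 1)
    (h : (a : AddCircle (N : ℝ)) = b) : a = b := by
  rw [coe_eq_iff] at h
  obtain ⟨k, hk⟩ := h
  have hN' : (2 : ℝ) ≤ N := by exact_mod_cast hN
  have hk0 : k = 0 := by
    by_contra hne
    rcases lt_or_gt_of_ne hne with h2 | h2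
    · have : (k : ℝ) ≤ -1 := by exact_mod_cast (show k ≤ -1 by omega)
      nlinarith
    · have : (1 : ℝ) ≤ k := by exact_mod_cast (show 1 ≤ k by omega)
      nlinarith
  rw [hk0] at hk
  simp at hk
  linarith

lemma pt_eq {lam lam' : Fin 3 → ℝ} (h : lam 0 + lam 1 + lam 2 = 1)
    (h' : lam' 0 + lam' 1 + lam' 2 = 1) (hp : pt lam = pt lam') : lam = lam' := by
  unfold pt at hp
  rw [Prod.mk.injEq] at hp
  ext l
  fin_cases l <;> simp <;> linarith [hp.1, hp.2]

lemma pt_mem {lam : Fin 3 → ℝ} (h : lam 0 + lam 1 + lam 2 = 1) (h0 : ∀ l, 0 ≤ lam l) :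
    0 ≤ (pt lam).1 ∧ (pt lam).1 ≤ 1 ∧ 0 ≤ (pt lam).2 ∧ (pt lam).2 ≤ 1 := by
  have := h0 0
  have := h0 1
  have := h0 2
  unfold pt
  refine ⟨?_, ?_, ?_, ?_⟩ <;> simp only <;> linarith

lemma pt_mem_lt {lam : Fin 3 → ℝ} (h : lam 0 + lam 1 + lam 2 = 1) (h0 : ∀ l, 0 < lam l) :
    0 < (pt lam).1 ∧ (pt lam).1 < 1 ∧ 0 < (pt lam).2 ∧ (pt lam).2 < 1 := by
  have := h0 0
  have := h0 1
  have := h0 2
  unfold pt
  refine ⟨?_, ?_, ?_, ?_⟩ <;> simp only <;> linarith

lemma pt_proj_eq (hN : 2 ≤ N) {lam lam' : Fin 3 → ℝ} (h : lam 0 + lam 1 + lam 2 = 1)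
    (h' : lam' 0 + lam' 1 + lam' 2 = 1) (h0 : ∀ l, 0 ≤ lam l) (h0' : ∀ l, 0 ≤ lam' l)
    (hp : proj N (pt lam) = proj N (pt lam')) : lam = lam' := by
  obtain ⟨a1, a2, a3, a4⟩ := pt_mem h h0
  obtain ⟨b1, b2, b3, b4⟩ := pt_mem h' h0'
  apply pt_eq h h'
  have h1 := congrArg Prod.fst hp
  have h2 := congrArg Prod.snd hp
  exact Prod.ext (eq_of_coe hN a1 a2 b1 b2 h1) (eq_of_coe hN a3 a4 b3 b4 h2)

lemma proj_fst {p q : ℝ × ℝ} (h : proj N p = proj N q) : (p.1 : AddCircle (N : ℝ)) = q.1 :=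
  congrArg Prod.fst h

lemma proj_snd {p q : ℝ × ℝ} (h : proj N p = proj N q) : (p.2 : AddCircle (N : ℝ)) = q.2 :=
  congrArg Prod.snd h

lemma lamR_one_int (j l : Fin 3) : ∃ w : ℤ, lamR 1 j l = w := by
  unfold lamR dl
  split_ifs
  · exact ⟨1, by norm_num⟩
  · exact ⟨0, by norm_num⟩

variable [NeZero N]

lemma zmod_inj {x y : ZMod N} (h : ((x.val : ℝ) : AddCircle (N : ℝ)) = (y.val : ℝ)) : x = y := by
  have := natval_injective (N := N) (Nat.one_le_iff_ne_zero.2 (NeZero.ne N))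
    (a₁ := ⟨x.val, x.val_lt⟩) (a₂ := ⟨y.val, y.val_lt⟩) h
  exact ZMod.val_injective N (Fin.mk.inj this)

/-- interior points of patch arcs have non-integral coordinates -/
lemma patch_interior (e : Ex N m) (s : ℝ) (hs0 : 0 < s) (hs1 : s < 1)
    (he : (∃ i k, e = .tri i k) ∨ ∃ i j, e = .rad i j) :
    ¬ (∃ w : ℤ, (arcR e s).1 = w) ∧ ¬ ∃ w : ℤ, (arcR e s).2 = w := by
  rcases he with ⟨i, k, rfl⟩ | ⟨i, j, rfl⟩
  · obtain ⟨h1, h2, h3, h4⟩ := pt_mem_lt (lamT_sum (rho (i + 1)) k s)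
      (lamT_pos (rho_pos _) (rho_succ_lt_one _) hs0.le hs1.le)
    exact ⟨not_int h1 h2, not_int h3 h4⟩
  · obtain ⟨h1, h2, h3, h4⟩ := pt_mem_lt (lamR_sum (radius i s) j)
      (lamR_pos (radius_pos _ hs0.le hs1.le) (radius_lt_one _ hs0 hs1))
    exact ⟨not_int h1 h2, not_int h3 h4⟩

/-- a point of a patch arc has both coordinates integral or both non-integral -/
lemma patch_any (e : Ex N m) (t : ℝ) (ht0 : 0 ≤ t) (ht1 : t ≤ 1)
    (he : (∃ i k, e = .tri i k) ∨ ∃ i j, e = .rad i j) :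
    ((∃ w : ℤ, (arcR e t).1 = w) ∧ ∃ w : ℤ, (arcR e t).2 = w) ∨
    (¬ (∃ w : ℤ, (arcR e t).1 = w) ∧ ¬ ∃ w : ℤ, (arcR e t).2 = w) := by
  rcases he with ⟨i, k, rfl⟩ | ⟨i, j, rfl⟩
  · right
    obtain ⟨h1, h2, h3, h4⟩ := pt_mem_lt (lamT_sum (rho (i + 1)) k t)
      (lamT_pos (rho_pos _) (rho_succ_lt_one _) ht0 ht1)
    exact ⟨not_int h1 h2, not_int h3 h4⟩
  · rcases (radius_le_one i ht0 ht1).lt_or_eq with h | h
    · right
      obtain ⟨h1, h2, h3, h4⟩ := pt_mem_lt (lamR_sum (radius i t) j)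
        (lamR_pos (radius_pos _ ht0 ht1) h)
      exact ⟨not_int h1 h2, not_int h3 h4⟩
    · left
      obtain ⟨a, ha⟩ := lamR_one_int j 1
      obtain ⟨b, hb⟩ := lamR_one_int j 2
      refine ⟨⟨a + b, ?_⟩, ⟨b, ?_⟩⟩
      · show lamR (radius i t) j 1 + lamR (radius i t) j 2 = _
        rw [h, ha, hb]; push_cast; ring
      · show lamR (radius i t) j 2 = _
        rw [h, hb]

lemma int_transfer {a b : ℝ} (h : (a : AddCircle (N : ℝ)) = b) (hb : ∃ w : ℤ, b = w) :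
    ∃ w : ℤ, a = w := by
  obtain ⟨w, rfl⟩ := hb
  exact int_of_coe h

/-- the arcs have disjoint interiors -/
theorem arcR_disjoint (hN : 2 ≤ N) (e e' : Ex N m) (s t : ℝ) (hs0 : 0 < s) (hs1 : s < 1)
    (ht0 : 0 ≤ t) (ht1 : t ≤ 1) (h : proj N (arcR e s) = proj N (arcR e' t)) :
    e = e' ∧ s = t := by
  have hf := proj_fst h
  have hg := proj_snd h
  by_cases he : (∃ i k, e = .tri i k) ∨ ∃ i j, e = .rad i j
  · -- `e` is in the patch
    obtain ⟨n1, n2⟩ := patch_interior e s hs0 hs1 he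
    rcases e' with ⟨x', y'⟩ | ⟨x', y'⟩ | ⟨i', k'⟩ | ⟨i', j'⟩
    · exact absurd (int_transfer hg ⟨(y'.val : ℤ), by simp [arcR]⟩) n2
    · exact absurd (int_transfer hf ⟨(x'.val : ℤ), by simp [arcR]⟩) n1
    · rcases he with ⟨i, k, rfl⟩ | ⟨i, j, rfl⟩
      · have hl := pt_proj_eq hN (lamT_sum _ _ _) (lamT_sum _ _ _)
          (fun l => (lamT_pos (rho_pos _) (rho_succ_lt_one _) hs0.le hs1.le l).le)
          (fun l => (lamT_pos (rho_pos _) (rho_succ_lt_one _) ht0 ht1 l).le) h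
        obtain ⟨h1, h2, h3⟩ := TT (rho_pos _) (rho_pos _) hs0 hs1 ht0 ht1 hl
        have h4 := rho_inj h1
        have h5 : i = i' := Fin.ext (by omega)
        rw [h5, h2]
        exact ⟨rfl, h3⟩
      · have hl := pt_proj_eq hN (lamR_sum _ _) (lamT_sum _ _ _)
          (fun l => lamR_nonneg (radius_pos _ hs0.le hs1.le) (radius_le_one _ hs0.le hs1.le) l)
          (fun l => (lamT_pos (rho_pos _) (rho_succ_lt_one _) ht0 ht1 l).le) h
        exact absurd (RT (radius_pos _ hs0.le hs1.le) (rho_pos _) ht0 ht1 hl)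
          (radius_ne_rho _ _ hs0 hs1)
    · rcases he with ⟨i, k, rfl⟩ | ⟨i, j, rfl⟩
      · have hl := pt_proj_eq hN (lamT_sum _ _ _) (lamR_sum _ _)
          (fun l => (lamT_pos (rho_pos _) (rho_succ_lt_one _) hs0.le hs1.le l).le)
          (fun l => lamR_nonneg (radius_pos _ ht0 ht1) (radius_le_one _ ht0 ht1) l) h
        exact (TR (rho_pos _) (radius_pos _ ht0 ht1) hs0 hs1 hl).elim
      · have hl := pt_proj_eq hN (lamR_sum _ _) (lamR_sum _ _)
          (fun l => lamR_nonneg (radius_pos _ hs0.le hs1.le) (radius_le_one _ hs0.le hs1.le) l)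
          (fun l => lamR_nonneg (radius_pos _ ht0 ht1) (radius_le_one _ ht0 ht1) l) h
        obtain ⟨h1, h2⟩ := RR (radius_pos _ hs0.le hs1.le) (radius_pos _ ht0 ht1) hl
        obtain ⟨h3, h4⟩ := radius_inj hs0 hs1 ht0 ht1 h1
        have h5 : i = i' := Fin.ext h3
        rw [h5, h2]
        exact ⟨rfl, h4⟩
  · by_cases he' : (∃ i k, e' = .tri i k) ∨ ∃ i j, e' = .rad i j
    · exfalso
      rcases e with ⟨x, y⟩ | ⟨x, y⟩ | ⟨i, k⟩ | ⟨i, j⟩
      · have h2 : ∃ w : ℤ, (arcR e' t).2 = w := int_transfer hg.symm ⟨(y.val : ℤ), by simp [arcR]⟩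
        rcases patch_any e' t ht0 ht1 he' with ⟨h3, -⟩ | ⟨-, h3⟩
        · exact not_int_add x.val hs0 hs1 (int_transfer hf h3)
        · exact h3 h2
      · have h2 : ∃ w : ℤ, (arcR e' t).1 = w := int_transfer hf.symm ⟨(x.val : ℤ), by simp [arcR]⟩
        rcases patch_any e' t ht0 ht1 he' with ⟨-, h3⟩ | ⟨h3, -⟩
        · exact not_int_add y.val hs0 hs1 (int_transfer hg h3)
        · exact h3 h2
      · exact he (Or.inl ⟨i, k, rfl⟩)
      · exact he (Or.inr ⟨i, j, rfl⟩)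
    · have hst : ∀ a b : ℕ, (((a : ℝ) + s : ℝ) : AddCircle (N : ℝ)) = ((b : ℝ) + t : ℝ) →
          s = t ∧ ((a : ℝ) : AddCircle (N : ℝ)) = (b : ℝ) := by
        intro a b hab
        have hst : s = t := by
          rw [coe_eq_iff] at hab
          obtain ⟨k, hk⟩ := hab
          have h1 : s - t = ((k * N + b - a : ℤ) : ℝ) := by push_cast; linarith
          have h2 : ((-1 : ℤ) : ℝ) < ((k * N + b - a : ℤ) : ℝ) := by
            rw [← h1]; push_cast; linarith
          have h3 : ((k * N + b - a : ℤ) : ℝ) < ((1 : ℤ) : ℝ) := by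
            rw [← h1]; push_cast; linarith
          have h4 : (-1 : ℤ) < k * N + b - a := by exact_mod_cast h2
          have h5 : (k * N + b - a : ℤ) < 1 := by exact_mod_cast h3
          have h6 : (k * N + b - a : ℤ) = 0 := by omega
          rw [h6] at h1
          simp at h1
          linarith
        refine ⟨hst, ?_⟩
        rw [hst, AddCircle.coe_add, AddCircle.coe_add] at hab
        exact add_right_cancel hab
      rcases e with ⟨x, y⟩ | ⟨x, y⟩ | ⟨i, k⟩ | ⟨i, j⟩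
      · rcases e' with ⟨x', y'⟩ | ⟨x', y'⟩ | ⟨i', k'⟩ | ⟨i', j'⟩
        · obtain ⟨h1, h2⟩ := hst x.val x'.val hf
          rw [zmod_inj h2, zmod_inj hg]
          exact ⟨rfl, h1⟩
        · exact absurd (int_transfer hf ⟨(x'.val : ℤ), by simp [arcR]⟩)
            (not_int_add x.val hs0 hs1)
        · exact absurd (Or.inl ⟨i', k', rfl⟩) he'
        · exact absurd (Or.inr ⟨i', j', rfl⟩) he'
      · rcases e' with ⟨x', y'⟩ | ⟨x', y'⟩ | ⟨i', k'⟩ | ⟨i', j'⟩
        · exact absurd (int_transfer hg ⟨(y'.val : ℤ), by simp [arcR]⟩)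
            (not_int_add y.val hs0 hs1)
        · obtain ⟨h1, h2⟩ := hst y.val y'.val hg
          rw [zmod_inj h2, zmod_inj hf]
          exact ⟨rfl, h1⟩
        · exact absurd (Or.inl ⟨i', k', rfl⟩) he'
        · exact absurd (Or.inr ⟨i', j', rfl⟩) he'
      · exact absurd (Or.inl ⟨i, k, rfl⟩) he
      · exact absurd (Or.inr ⟨i, j, rfl⟩) he

lemma posR_grid_int (x y : ZMod N) :
    (∃ w : ℤ, (posR (.grid x y : Vx N m)).1 = w) ∧ ∃ w : ℤ, (posR (.grid x y : Vx N m)).2 = w :=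
  ⟨⟨(x.val : ℤ), by simp [posR]⟩, ⟨(y.val : ℤ), by simp [posR]⟩⟩

lemma posR_lay_not_int (i : Fin m) (j : Fin 3) :
    ¬ ∃ w : ℤ, (posR (.lay i j : Vx N m)).1 = w := by
  obtain ⟨h1, h2, -, -⟩ := pt_mem_lt (lamR_sum (rho (i + 1)) j)
    (lamR_pos (rho_pos _) (rho_succ_lt_one _))
  exact not_int h1 h2

lemma pos_injective (hN : 2 ≤ N) :
    Function.Injective (fun v : Vx N m => proj N (posR v)) := by
  rintro (⟨x, y⟩ | ⟨i, j⟩) (⟨x', y'⟩ | ⟨i', j'⟩) h
  · have h : proj N (posR (.grid x y : Vx N m)) = proj N (posR (.grid x' y' : Vx N m)) := h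
    rw [zmod_inj (proj_fst h), zmod_inj (proj_snd h)]
  · have h : proj N (posR (.grid x y : Vx N m)) = proj N (posR (.lay i' j' : Vx N m)) := h
    exact absurd (int_transfer (proj_fst h).symm (posR_grid_int (m := m) x y).1)
      (posR_lay_not_int i' j')
  · have h : proj N (posR (.lay i j : Vx N m)) = proj N (posR (.grid x' y' : Vx N m)) := h
    exact absurd (int_transfer (proj_fst h) (posR_grid_int (m := m) x' y').1)
      (posR_lay_not_int i j)
  · have h : proj N (posR (.lay i j : Vx N m)) = proj N (posR (.lay i' j' : Vx N m)) := h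
    have hl := pt_proj_eq hN (lamR_sum _ _) (lamR_sum _ _)
      (fun l => (lamR_pos (rho_pos _) (rho_succ_lt_one _) l).le)
      (fun l => (lamR_pos (rho_pos _) (rho_succ_lt_one _) l).le) h
    obtain ⟨h1, h2⟩ := RR (rho_pos _) (rho_pos _) hl
    have h3 := rho_inj h1
    have h4 : i = i' := Fin.ext (by omega)
    rw [h4, h2]

lemma val_add_one (x : ZMod N) :
    (((x.val : ℝ) + 1 : ℝ) : AddCircle (N : ℝ)) = (((x + 1).val : ℝ)) := by
  rw [coe_eq_iff]
  have h : (x + 1).val = (x.val + 1) % N := by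
    rw [ZMod.val_add, ZMod.val_one_eq_one_mod, Nat.add_mod_mod]
  refine ⟨(((x.val + 1) / N : ℕ) : ℤ), ?_⟩
  have h2 := Nat.mod_add_div (x.val + 1) N
  rw [← h] at h2
  have h3 : (((x + 1).val + N * ((x.val + 1) / N) : ℕ) : ℝ) = ((x.val + 1 : ℕ) : ℝ) := by rw [h2]
  rw [Int.cast_natCast]
  simp only [Nat.cast_add, Nat.cast_mul, Nat.cast_one] at h3
  linarith

lemma node_pos (hN : 2 ≤ N) (n : Fin (m + 1)) (j : Fin 3) :
    posR (node n j : Vx N m) = pt (lamR (rho n) j) := by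
  have hv1 : (1 : ZMod N).val = 1 := by
    rw [ZMod.val_one_eq_one_mod, Nat.mod_eq_of_lt (by omega)]
  induction n using Fin.cases with
  | zero =>
    rw [node_zero]
    fin_cases j <;> simp [corner, posR, pt, lamR, dl, rho, hv1]
  | succ i =>
    rw [node_succ]
    simp [posR]

/-- the drawing on the torus of side `N` -/
noncomputable def drawN (hN : 2 ≤ N) :
    (Gr N m).Drawing (AddCircle (N : ℝ) × AddCircle (N : ℝ)) where
  pos v := proj N (posR v)
  arc e := ⟨fun t => proj N (arcR e t),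
    (proj N).continuous.comp ((arcR_continuous e).comp continuous_subtype_val)⟩
  pos_injective := pos_injective hN
  arc_zero e := by
    show proj N (arcR e ((0 : I) : ℝ)) = _
    rcases e with ⟨x, y⟩ | ⟨x, y⟩ | ⟨i, k⟩ | ⟨i, j⟩
    · simp [arcR, Gr, posR]
    · simp [arcR, Gr, posR]
    · simp [arcR, Gr, posR, lamT_zero]
    · show proj N (pt (lamR (radius i ((0 : I) : ℝ)) j)) = proj N (posR (node i.castSucc j))
      rw [node_pos hN]
      simp [radius]
  arc_one e := by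
    show proj N (arcR e ((1 : I) : ℝ)) = _
    rcases e with ⟨x, y⟩ | ⟨x, y⟩ | ⟨i, k⟩ | ⟨i, j⟩
    · refine Prod.ext ?_ rfl
      exact val_add_one x
    · refine Prod.ext rfl ?_
      exact val_add_one y
    · simp [arcR, Gr, posR, lamT_one]
    · simp [arcR, Gr, posR, radius]
  arc_avoid e s hs0 hs1 v hv := by
    have h0 : 0 < (s : ℝ) := lt_of_le_of_ne s.2.1 (fun h => hs0 (Subtype.ext h.symm))
    have h1 : (s : ℝ) < 1 := lt_of_le_of_ne s.2.2 (fun h => hs1 (Subtype.ext h))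
    have hv : proj N (arcR e (s : ℝ)) = proj N (posR v) := hv
    rcases v with ⟨x, y⟩ | ⟨i, j⟩
    · have h2 : posR (.grid x y : Vx N m) = arcR (.hor x y : Ex N m) 0 := by simp [posR, arcR]
      rw [h2] at hv
      exact h0.ne' (arcR_disjoint hN e _ s 0 h0 h1 le_rfl zero_le_one hv).2
    · have h2 : posR (.lay i j : Vx N m) = arcR (.rad i j : Ex N m) 1 := by
        simp [posR, arcR, radius]
      rw [h2] at hv
      exact h1.ne (arcR_disjoint hN e _ s 1 h0 h1 zero_le_one le_rfl hv).2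
  arc_disjoint e s hs0 hs1 e' t h := by
    have h0 : 0 < (s : ℝ) := lt_of_le_of_ne s.2.1 (fun h => hs0 (Subtype.ext h.symm))
    have h1 : (s : ℝ) < 1 := lt_of_le_of_ne s.2.2 (fun h => hs1 (Subtype.ext h))
    obtain ⟨h2, h3⟩ := arcR_disjoint hN e e' s t h0 h1 t.2.1 t.2.2 h
    exact ⟨h2, Subtype.ext h3⟩

lemma drawN_ver (hN : 2 ≤ N) (z : Fin N) (b : AddCircle (N : ℝ)) :
    ((((z.val : ℕ) : ℝ) : AddCircle (N : ℝ)), b) ∈ (drawN (m := m) hN).image := by
  have hNr : (0 : ℝ) < N := by exact_mod_cast (show 0 < N by omega)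
  have hfact : Fact ((0 : ℝ) < N) := ⟨hNr⟩
  obtain ⟨b', hb', rfl⟩ : ∃ x ∈ Set.Ico (0 : ℝ) N, (x : AddCircle (N : ℝ)) = b := by
    have := AddCircle.coe_image_Ico_eq (N : ℝ) 0
    have h2 : b ∈ ((↑) : ℝ → AddCircle (N : ℝ)) '' Set.Ico 0 (0 + (N : ℝ)) := by
      rw [this]; trivial
    obtain ⟨x, hx, hxu⟩ := h2
    exact ⟨x, by simpa using hx, hxu⟩
  have hfl := Nat.floor_le hb'.1
  have hlt := Nat.lt_floor_add_one b'
  have hy : ⌊b'⌋₊ < N := (Nat.floor_lt hb'.1).2 hb'.2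
  right
  rw [Set.mem_iUnion]
  refine ⟨.ver ((z.val : ℕ) : ZMod N) ((⌊b'⌋₊ : ℕ) : ZMod N),
    ⟨⟨b' - ⌊b'⌋₊, by linarith, by linarith⟩, ?_⟩⟩
  show proj N (arcR _ _) = _
  simp only [arcR, ZMod.val_natCast_of_lt z.isLt, ZMod.val_natCast_of_lt hy]
  rw [add_sub_cancel]
  rfl

lemma drawN_hor (hN : 2 ≤ N) (z : Fin N) (b : AddCircle (N : ℝ)) :
    (b, (((z.val : ℕ) : ℝ) : AddCircle (N : ℝ))) ∈ (drawN (m := m) hN).image := by
  have hNr : (0 : ℝ) < N := by exact_mod_cast (show 0 < N by omega)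
  have hfact : Fact ((0 : ℝ) < N) := ⟨hNr⟩
  obtain ⟨b', hb', rfl⟩ : ∃ x ∈ Set.Ico (0 : ℝ) N, (x : AddCircle (N : ℝ)) = b := by
    have := AddCircle.coe_image_Ico_eq (N : ℝ) 0
    have h2 : b ∈ ((↑) : ℝ → AddCircle (N : ℝ)) '' Set.Ico 0 (0 + (N : ℝ)) := by
      rw [this]; trivial
    obtain ⟨x, hx, hxu⟩ := h2
    exact ⟨x, by simpa using hx, hxu⟩
  have hfl := Nat.floor_le hb'.1
  have hlt := Nat.lt_floor_add_one b'
  have hy : ⌊b'⌋₊ < N := (Nat.floor_lt hb'.1).2 hb'.2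
  right
  rw [Set.mem_iUnion]
  refine ⟨.hor ((⌊b'⌋₊ : ℕ) : ZMod N) ((z.val : ℕ) : ZMod N),
    ⟨⟨b' - ⌊b'⌋₊, by linarith, by linarith⟩, ?_⟩⟩
  show proj N (arcR _ _) = _
  simp only [arcR, ZMod.val_natCast_of_lt z.isLt, ZMod.val_natCast_of_lt hy]
  rw [add_sub_cancel]
  rfl

theorem drawN_rep (hN : 2 ≤ N) : (drawN (m := m) hN).RepAtLeast N := by
  intro γ _ hγ
  exact grid_crossings (by omega) _ (drawN_ver hN) (drawN_hor hN) γ hγ

/-! ### transport along a homeomorphism -/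

/-- transport of a drawing along a homeomorphism -/
def mapDrawing {V E : Type} {G : MGraph V E} {X Y : Type} [TopologicalSpace X]
    [TopologicalSpace Y] (D : G.Drawing X) (h : X ≃ₜ Y) : G.Drawing Y where
  pos v := h (D.pos v)
  arc e := ⟨fun t => h (D.arc e t), h.continuous.comp (D.arc e).continuous⟩
  pos_injective := h.injective.comp D.pos_injective
  arc_zero e := congrArg h (D.arc_zero e)
  arc_one e := congrArg h (D.arc_one e)
  arc_avoid e s h0 h1 v hv := D.arc_avoid e s h0 h1 v (h.injective hv)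
  arc_disjoint e s h0 h1 e' t ht := D.arc_disjoint e s h0 h1 e' t (h.injective ht)

lemma mapDrawing_image {V E : Type} {G : MGraph V E} {X Y : Type} [TopologicalSpace X]
    [TopologicalSpace Y] (D : G.Drawing X) (h : X ≃ₜ Y) :
    (mapDrawing D h).image = h '' D.image := by
  unfold MGraph.Drawing.image
  rw [Set.image_union, Set.image_iUnion]
  congr 1
  · ext x
    simp [mapDrawing]
  · ext x
    simp [mapDrawing]

lemma mapDrawing_rep {V E : Type} {G : MGraph V E} {X Y : Type} [TopologicalSpace X]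
    [TopologicalSpace Y] (D : G.Drawing X) (h : X ≃ₜ Y) {k : ℕ} (hk : D.RepAtLeast k) :
    (mapDrawing D h).RepAtLeast k := by
  intro γ hinj hγ
  let hs : C(Y, X) := ⟨h.symm, h.symm.continuous⟩
  let hh : C(X, Y) := ⟨h, h.continuous⟩
  have h1 := hk (hs.comp γ) (h.symm.injective.comp hinj) (by
    intro hn
    apply hγ
    have := hn.comp_right hh
    have h2 : hh.comp (hs.comp γ) = γ := by
      ext1 x
      exact h.apply_symm_apply _
    rwa [h2] at this)
  refine h1.trans ?_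
  rw [mapDrawing_image]
  have h3 : h '' (Set.range (hs.comp γ) ∩ D.image) = Set.range γ ∩ h '' D.image := by
    rw [Set.image_inter h.injective]
    congr 1
    ext x
    constructor
    · rintro ⟨_, ⟨u, rfl⟩, rfl⟩
      exact ⟨u, (h.apply_symm_apply _).symm⟩
    · rintro ⟨u, rfl⟩
      exact ⟨h.symm (γ u), ⟨u, rfl⟩, h.apply_symm_apply _⟩
  rw [← h3, h.injective.encard_image]

theorem exists_drawing (hN : 2 ≤ N) : ∃ D : (Gr N m).Drawing Torus, D.RepAtLeast N := by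
  have hNr : (N : ℝ) ≠ 0 := by exact_mod_cast (show N ≠ 0 by omega)
  let h := AddCircle.homeomorphAddCircle (N : ℝ) (1 : ℝ) hNr one_ne_zero
  exact ⟨mapDrawing (drawN hN) (h.prodCongr h), mapDrawing_rep _ _ (drawN_rep hN)⟩

end Pool.Agent.R177.Per
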